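import Pool.Agent.Zk69.DH.Cone

set_option autoImplicit false

/-!
The assembly of `S_LM`.
-/

namespace Pool.Agent.Zk69.DH

open Complex Filter Topology MeasureTheory Set
open Pool.Agent.H24R2.JP (XX HH Om)
open Pool.Agent.H24R2.DZ (bad ra)
open Pool.Agent.Zk1.DH

lemma ZC_shift {T x0 x1 A A' e C1 t : ℝ} (hL : 0 ≤ Real.log T) (he : 0 ≤ e) (hx : x0 ≤ x1)
    (h0 : 0 ≤ A * x1) (hA : A * x1 ≤ A' * x0) (h : ZC T x0 A' e C1 t) : ZC T x1 A e C1 t := by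
  have key : ∀ x : ℝ, wid T x1 A e x ≤ wid T x0 A' e x := by
    intro x
    unfold wid
    refine mul_le_mul hA ?_ (Real.exp_pos _).le (h0.trans hA)
    refine Real.exp_le_exp.mpr (mul_le_mul_of_nonneg_right ?_ hL)
    exact mul_le_mul_of_nonneg_left (by linarith) he
  exact ⟨fun z hz hi => h.ne z (hx.trans hz) (hi.trans (key _)),
    fun z hz hi => h.ld z (hx.trans hz) (hi.trans (key _))⟩

/-- The bound for zeta in terms of `P` in the near rectangle. -/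
def ZPOK (ρ R Y ρ2 C2 δ : ℝ) (K0 q n : ℕ) (T t r : ℝ) : Prop :=
  ∀ w : ℂ, ρ2 ≤ w.re → w.re ≤ ρ + R + 1 → |w.im| ≤ Y + 1 →
      ‖riemannZeta (1 / 2 + (I * t + r * w))‖ ≤
        Real.exp C2 * ‖PP (T ^ (1 / K0 : ℝ)) (1 / 2 + (I * t + r * w))‖ ∧
      ‖riemannZeta (1 / 2 + (I * t + r * w)) - PP (T ^ (1 / K0 : ℝ)) (1 / 2 + (I * t + r * w)) *
        (1 + DD (T ^ (1 / K0 : ℝ)) (T ^ (1 / K0 : ℝ)) (T ^ (1 / 2 : ℝ)) (1 / 2 + (I * t + r * w)))‖ ≤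
      ‖PP (T ^ (1 / K0 : ℝ)) (1 / 2 + (I * t + r * w))‖ * Real.exp (C2 + 4 * n + 2 * ρ2 * n) *
        (w.re / ρ2) ^ q * Real.exp (-((1 - 4 * δ) * n * w.re))

lemma zp_ok {C1 e δ : ℝ} {K0 : ℕ} (hZP : S_ZP) (hC1 : 0 < C1) (he : 0 < e) (he1 : e ≤ 1 / 100) (hδ : 0 < δ)
    (hδ1 : δ ≤ 1 / 8) (hK0 : 3 ≤ K0) : ∃ C2 N1 T0 : ℝ, ∃ q : ℕ, 0 < C2 ∧ 1 ≤ N1 ∧ 2 ≤ T0 ∧
    ∀ (ρ R Y ρ2 T t : ℝ) (n : ℕ), 1 ≤ Y → 4 ≤ ρ2 → T0 ≤ T → T / 2 ≤ t → t ≤ 3 * T → N1 ≤ n →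
    ρ2 * ra T n ≤ 1 / 4 → (Y + 1) * (ρ2 * ra T n) ≤ 1 → ra T n * (ρ + R + 1) ≤ 1 →
    ZC T (ρ2 * ra T n) (Y + 4) (2 * e) C1 t → ConeOK C1 (2 * e) δ (Y + 4) ρ2 K0 n T t →
    ZPOK ρ R Y ρ2 C2 δ K0 q n T t (ra T n) := by
  obtain ⟨C2, N1, T0, q, hC2, hN1, hT0, h⟩ := hZP C1 e δ K0 hC1 he he1 hδ hδ1 hK0
  refine ⟨C2, N1, T0, q, hC2, hN1, hT0, fun ρ R Y ρ2 T t n hY hρ2 hT ht1 ht2 hn hx4 hYx hrQ hZC hcone => ?_⟩
  have hT2 : 2 ≤ T := by linarith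
  have hL : 0 < Real.log T := Real.log_pos (by linarith)
  have hn1 : 1 ≤ n := by
    have : (1 : ℝ) ≤ n := by linarith
    exact_mod_cast this
  have hr := ra_pos hT2 hn1
  have hrL := ra_L n hT2
  set r := ra T n with hrdef
  have hx0L : ρ2 * r * Real.log T = 2 * ρ2 * n := by
    rw [mul_assoc, hrL]; ring
  have eY : Y + 1 + 3 = Y + 4 := by ring
  have hmain := h (Y + 1) T t (ρ2 * r) (4 * n) (by linarith) hT ht1 ht2 (by rw [hx0L]; nlinarith) hx4 hYx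
    (by positivity) (by rw [eY]; exact hZC) (by rw [eY]; exact hcone.1) (by rw [eY]; exact hcone.2)
  intro w hw1 hw2 hw3
  have hre : (I * t + r * w : ℂ).re = r * w.re := p_re t r w
  obtain ⟨-, b1, b2⟩ := hmain (I * t + r * w) (by rw [hre]; nlinarith) (by rw [hre]; nlinarith) (by
    rw [p_im, add_sub_cancel_left, abs_mul, abs_of_pos hr]
    calc r * |w.im| ≤ r * (Y + 1) := mul_le_mul_of_nonneg_left hw3 hr.le
      _ ≤ (Y + 1) * (ρ2 * r) := by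
        have : 0 ≤ (Y + 1) * r := by positivity
        nlinarith)
  refine ⟨b1, b2.trans (le_of_eq ?_)⟩
  rw [hre, hx0L]
  have e1 : r * w.re / (ρ2 * r) = w.re / ρ2 := by
    rw [mul_comm ρ2 r, mul_div_mul_left _ _ hr.ne']
  have e2 : (1 / 2 - 2 * δ) * (r * w.re) * Real.log T = (1 - 4 * δ) * n * w.re := by
    calc _ = (1 / 2 - 2 * δ) * w.re * (r * Real.log T) := by ring
      _ = _ := by rw [hrL]; ring
  rw [e1, e2]

theorem sLM (hMP : S_MP) (hMP0 : S_MP0) (hMD : S_MD) (hMD0 : S_MD0) (hZC : S_ZC) (hNG : S_NG)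
    (hZP : S_ZP) (hLOC : S_LOC) : S_LM := by
  intro κt R hκt hκt4 hR
  -- ε, κ
  obtain ⟨ε, hε, hε1, hε2⟩ : ∃ ε : ℝ, 0 < ε ∧ ε ≤ 1 / 2 ∧ ε ≤ (4 - κt) / 8 :=
    ⟨min (1 / 2) ((4 - κt) / 8), lt_min (by norm_num) (by linarith), min_le_left _ _, min_le_right _ _⟩
  obtain ⟨κ, hκ, hκε, hκ1, hLOC⟩ := hLOC ε hε hε1
  have hκt' : κt ≤ 4 * (1 - ε) * (1 - κ) := by nlinarith
  -- the cone
  obtain ⟨C1', hC1', hZC⟩ := hZC
  obtain ⟨C1, hC1, hC1l⟩ : ∃ C1 : ℝ, 1 ≤ C1 ∧ C1' ≤ C1 := ⟨max 1 C1', le_max_left _ _, le_max_right _ _⟩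
  obtain ⟨ρz, ez, κz, hρz, hez, hez1, hκz, -, hZC⟩ := hZC 4 (by norm_num)
  obtain ⟨ρ2, hρ2, hρ2z⟩ : ∃ ρ2 : ℝ, 4 ≤ ρ2 ∧ ρz ≤ ρ2 := ⟨max 4 ρz, le_max_left _ _, le_max_right _ _⟩
  -- growth
  obtain ⟨KN, hKN, hNG⟩ := hNG 4 (max (R + 2) ρ2) (by norm_num) (by
    have := le_max_right (R + 2) ρ2; linarith)
  obtain ⟨K, hK, hKKN⟩ : ∃ K : ℝ, ρ2 ≤ K ∧ KN ≤ K := ⟨max ρ2 KN, le_max_left _ _, le_max_right _ _⟩
  obtain ⟨C5, κN, hC5, hκN, hNG⟩ := hNG K hKKN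
  -- B, ρ, C3, Y, K0
  obtain ⟨ρ0, hρ0, hLOC⟩ := hLOC R (C5 + K + 2 * ρ2 + 10) hR (by linarith)
  obtain ⟨ρ, hρ, hρK⟩ : ∃ ρ : ℝ, ρ0 ≤ ρ ∧ K ≤ ρ := ⟨max ρ0 K, le_max_left _ _, le_max_right _ _⟩
  obtain ⟨Y, hY, hLOC⟩ := hLOC ρ hρ (C5 + K + 1) (by linarith)
  obtain ⟨a1, ha1, hLOC⟩ := hLOC Y le_rfl
  have hρp : 0 < ρ := by linarith
  have hRp : 0 < R := by linarith
  have hYp : 0 < Y := by linarith
  have hρ2p : 0 < ρ2 := by linarith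
  have hρzp : 0 < ρz := by linarith
  obtain ⟨δ, hδ, hδ8, hδQ⟩ : ∃ δ : ℝ, 0 < δ ∧ δ ≤ 1 / 8 ∧ 4 * δ * (ρ + R + 1) ≤ 1 := by
    refine ⟨1 / (16 * (ρ + R + 2)), by positivity, ?_, ?_⟩
    · exact one_div_le_one_div_of_le (by norm_num) (by linarith)
    · rw [mul_one_div, div_mul_eq_mul_div, div_le_one (by positivity)]
      nlinarith
  obtain ⟨e, he, he1, he2⟩ : ∃ e : ℝ, 0 < e ∧ 2 * e ≤ ez ∧ 2 * e ≤ δ :=
    ⟨min (ez / 2) (δ / 2), lt_min (by linarith) (by linarith), by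
      have := min_le_left (ez / 2) (δ / 2); linarith, by
      have := min_le_right (ez / 2) (δ / 2); linarith⟩
  obtain ⟨K0, hK16, hKa, hKε, hKη⟩ : ∃ K0 : ℕ, 16 ≤ K0 ∧ 1 / (K0 : ℝ) ≤ a1 ∧ 8 / (K0 : ℝ) ≤ ε ∧
      40 / (K0 : ℝ) * (ρ + R + Y + 3) ≤ 1 := by
    refine ⟨⌈1 / a1⌉₊ + ⌈8 / ε⌉₊ + ⌈40 * (ρ + R + Y + 3)⌉₊ + 16, by omega, ?_, ?_, ?_⟩
    all_goals push_cast
    all_goals
      have g1 := Nat.le_ceil (1 / a1)
      have g2 := Nat.le_ceil (8 / ε)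
      have g3 := Nat.le_ceil (40 * (ρ + R + Y + 3))
      have g4 : 0 < 1 / a1 := by positivity
      have g5 : 0 < 8 / ε := by positivity
      have g6 : 0 < 40 * (ρ + R + Y + 3) := by positivity
    · rw [div_le_comm₀ (by positivity) ha1]
      linarith
    · rw [div_le_comm₀ (by positivity) hε]
      linarith
    · rw [div_mul_eq_mul_div, div_le_one (by positivity)]
      linarith
  have hK0R : (16 : ℝ) ≤ K0 := by exact_mod_cast hK16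
  have hη : 0 < 40 / (K0 : ℝ) := by positivity
  obtain ⟨nL, hLOC⟩ := hLOC K0 (40 / K0) (by omega) hKa hη le_rfl
  obtain ⟨C2, N1, TZ, q, hC2, hN1, hTZ, hzp⟩ := zp_ok (C1 := C1) hZP (by linarith) he (by linarith) hδ hδ8
    (by omega : 3 ≤ K0)
  obtain ⟨TH, hTH, hHH⟩ := HH_ok hη (M := ρ + R + Y + 3) (by linarith)
  -- exceptional sets
  have E1 := near hMP hMD (ρ := ρ) (R := R) (Y := Y) (K0 := K0) hκt' hε1 hκ hκ1 (by linarith) hR hY (by omega) hKε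
  have E3 := cone hMP hMP0 hMD hMD0 (C1 := C1) (e := 2 * e) (δ := δ) (A := Y + 4) (ρ2 := ρ2) (K0 := K0) hC1
    (by linarith) (by linarith) he2 (by linarith) hρ2 hK16
  have E2 : Sm 4 κz (fun T n t => ¬ ZC T (ρz * ra T n) ((Y + 4) * (ρ2 / ρz)) ez C1' t) := by
    obtain ⟨C, T0, n0, hC, hT0, h⟩ := hZC ((Y + 4) * (ρ2 / ρz)) (by
      have : 1 ≤ ρ2 / ρz := by rw [le_div_iff₀ (by linarith)]; linarith
      nlinarith)
    exact ⟨C, T0, n0, hC, hT0, h⟩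
  have E4 : Sm 4 κN (fun T n t => ∃ w : ℂ, |w.re| ≤ max (R + 2) ρ2 ∧ |w.im| ≤ Y + 1 ∧
    ‖XX (I * ((t + ra T n * w.im : ℝ) : ℂ) + (ra T n * K : ℝ))‖ * Real.exp (C5 * n) <
      ‖XX (I * t + ra T n * w)‖) := by
    obtain ⟨C, T0, n0, hC, hT0, h⟩ := hNG (Y + 1) (by linarith)
    exact ⟨C, T0, n0, hC, hT0, h⟩
  obtain ⟨κ1, hκ1p, k1, k2, k3, k4, k5, k6⟩ : ∃ κ1 : ℝ, 0 < κ1 ∧ κ1 ≤ 1 ∧ κ1 ≤ 1 / (2 * (Y + 4) * ρ2) ∧
      κ1 ≤ κz ∧ κ1 ≤ κN ∧ κ1 ≤ 1 / (8 * ρ2) ∧ κ1 ≤ 1 / (2 * (ρ + R + 1)) := by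
    refine ⟨min 1 (min (1 / (2 * (Y + 4) * ρ2)) (min κz (min κN (min (1 / (8 * ρ2)) (1 / (2 * (ρ + R + 1))))))), ?_,
      min_le_left _ _, (min_le_right _ _).trans (min_le_left _ _),
      (min_le_right _ _).trans ((min_le_right _ _).trans (min_le_left _ _)),
      (min_le_right _ _).trans ((min_le_right _ _).trans ((min_le_right _ _).trans (min_le_left _ _))),
      (min_le_right _ _).trans ((min_le_right _ _).trans ((min_le_right _ _).trans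
        ((min_le_right _ _).trans (min_le_left _ _)))),
      (min_le_right _ _).trans ((min_le_right _ _).trans ((min_le_right _ _).trans
        ((min_le_right _ _).trans (min_le_right _ _))))⟩
    refine lt_min one_pos (lt_min (by positivity) (lt_min hκz (lt_min hκN (lt_min (by positivity) (by positivity)))))
  have F1 := E1.mono (κ' := κt) (κ1' := κ1) le_rfl k1 0 0 (fun _ _ _ _ _ _ _ _ _ h => h)
  have F2 := E2.mono (κ' := κt) (κ1' := κ1) hκt4.le k3 0 0 (fun _ _ _ _ _ _ _ _ _ h => h)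
  have F3 := E3.mono (κ' := κt) (κ1' := κ1) hκt4.le k2 0 0 (fun _ _ _ _ _ _ _ _ _ h => h)
  have F4 := E4.mono (κ' := κt) (κ1' := κ1) hκt4.le k4 0 0 (fun _ _ _ _ _ _ _ _ _ h => h)
  have hfin : Sm κt κ1 (fun T n t => ∃ s : ℂ, bad n s ∧ |s.im - t| ≤ ra T n / 100 ∧
      |s.re| ≤ R * ra T n) := by
    refine (((F1.or F2).or F3).or F4).mono le_rfl le_rfl (TZ + TH + 4 * (Y + 2))
      (nL + ⌈N1⌉₊ + ⌈C2⌉₊ + K0 + ⌈(ρ + R + 1) ^ q⌉₊ + 1) ?_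
    rintro T n t hT2 hT hn hnκ ht1 ht2 ⟨s, hs, hs1, hs2⟩
    by_contra hcon
    push Not at hcon
    obtain ⟨⟨⟨g1, g2⟩, g3⟩, g4⟩ := hcon
    have hTpos : 0 < T := by linarith
    have hL : 0 < Real.log T := Real.log_pos (by linarith)
    have hnn : ((nL + ⌈N1⌉₊ + ⌈C2⌉₊ + K0 + ⌈(ρ + R + 1) ^ q⌉₊ + 1 : ℕ) : ℝ) ≤ n := by exact_mod_cast hn
    push_cast at hnn
    have c1 := Nat.le_ceil N1
    have c2 := Nat.le_ceil C2
    have c3 := Nat.le_ceil ((ρ + R + 1) ^ q)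
    have p1 : (0 : ℝ) ≤ nL := Nat.cast_nonneg _
    have p3 : 0 < (ρ + R + 1) ^ q := by positivity
    have hn1 : 1 ≤ n := by omega
    have hr := ra_pos hT2 hn1
    have hrL := ra_L n hT2
    have hr2 := ra_le hT2 hnκ
    have hexpn := Real.add_one_le_exp (n : ℝ)
    have hρ2pos : 0 < ρ2 := by linarith
    have hx4 : ρ2 * ra T n ≤ 1 / 4 := by
      calc ρ2 * ra T n ≤ ρ2 * (2 * (1 / (8 * ρ2))) := by
            refine mul_le_mul_of_nonneg_left (hr2.trans ?_) hρ2pos.le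
            linarith
        _ = 1 / 4 := by field_simp; norm_num
    have hYx : (Y + 1) * (ρ2 * ra T n) ≤ 1 := by
      calc (Y + 1) * (ρ2 * ra T n) ≤ (Y + 4) * (ρ2 * (2 * (1 / (2 * (Y + 4) * ρ2)))) := by
            refine mul_le_mul (by linarith) ?_ (by positivity) (by linarith)
            refine mul_le_mul_of_nonneg_left (hr2.trans ?_) hρ2pos.le
            linarith
        _ = 1 := by field_simp
    have hrQ : ra T n * (ρ + R + 1) ≤ 1 := by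
      calc ra T n * (ρ + R + 1) ≤ (2 * (1 / (2 * (ρ + R + 1)))) * (ρ + R + 1) := by
            refine mul_le_mul_of_nonneg_right (hr2.trans ?_) (by linarith)
            linarith
        _ = 1 := by field_simp
    have hZC1 : ZC T (ρ2 * ra T n) (Y + 4) (2 * e) C1 t := by
      have h1 := ZC_shift (x1 := ρ2 * ra T n) (A := Y + 4) hL.le hez.le
        (mul_le_mul_of_nonneg_right hρ2z hr.le) (by positivity) (le_of_eq (by field_simp)) g2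
      exact ZC_mono hL.le (by positivity) he1 hC1l h1
    have hzpok := hzp ρ R Y ρ2 T t n hY hρ2 (by linarith) ht1 ht2 (by linarith) hx4 hYx hrQ hZC1 g3
    refine no_bad (R := R) hr ?_ s hs hs1 hs2
    refine hLOC n _ _ _ (by omega)
      (det (q := q) (ρ2 := ρ2) (K := K) (C5 := C5) (C2 := C2) (δ := δ) (L := Real.log T)
        (X := T ^ (1 / K0 : ℝ)) (T := T) (t := t) (r := ra T n) rfl (by linarith) (by omega) hn1 hε.le (by linarith)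
        hκ hκ1 hR hY (by linarith) hK hρK hC5.le hr hrL hη hKη ?_ hδ hδQ ?_ g1.1 g1.2 hzpok ?_
        (by linarith) (by linarith) (by linarith) le_rfl le_rfl)
    · intro y hy
      have : |ra T n * y| ≤ 2 * (Y + 1) := by
        rw [abs_mul, abs_of_pos hr]
        exact mul_le_mul (hr2.trans (by linarith)) hy (abs_nonneg _) (by norm_num)
      have := (abs_le.mp this).1
      linarith
    · intro w hw1 hw2 hw3
      refine hHH T t n (by linarith) hn1 (hnκ.trans (by nlinarith)) ht1 ht2 w ?_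
      refine (Complex.norm_le_abs_re_add_abs_im _).trans ?_
      rw [abs_of_nonneg (by linarith : 0 ≤ w.re)]
      linarith
    · intro w hw1 hw2
      exact g4 w hw1 hw2
  obtain ⟨C, T0, n0, hC, hT0, h⟩ := hfin
  exact ⟨κ1, C, T0, n0, hκ1p, hC, hT0, h⟩

end Pool.Agent.Zk69.DH
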