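import Pool.Agent.Zk1.DH.Spec
import Pool.Agent.W571.SD.Dy
import Pool.Agent.H370R2.Final
import Pool.Agent.H370R2.DirGood
import Pool.Agent.Zk5.DH.Fin
import Pool.Agent.Zk2.XP.Rolle

set_option autoImplicit false

/-!
# DH4: the zeros of `XX^(n)` up to height `T` are finitely many, and at least `c T log T`

`zs n T` is the set of the zeros of `XX^(n)` with ordinate in `(0, T]`.
-/

namespace Pool.Agent.Zk69.DH

open Complex Filter Topology MeasureTheory Set
open Pool.Agent.H24R2.JP (XX HH Om)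
open Pool.Agent.H24R2.DZ (bad strip)
open Pool.Agent.W571.SD (wt one_le_wt iter_diff)
open Pool.Agent.Zk1.DH (DHB)
open Pool.Agent.H986R2.K4 (UpTo)

noncomputable section

/-- the zeros with ordinate in `(0, T]` -/
def zs (n : ℕ) (T : ℝ) : Set ℂ := {s : ℂ | iteratedDeriv n XX s = 0 ∧ 0 < s.im ∧ s.im ≤ T}

/-- the bad zeros with ordinate in `(0, T]` -/
def bs (n : ℕ) (T : ℝ) : Set ℂ := {s : ℂ | bad n s ∧ 0 < s.im ∧ s.im ≤ T}

theorem iter_ne (n : ℕ) : iteratedDeriv n XX 1 ≠ 0 := by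
  intro h
  have h5 := strip n 1 h
  norm_num at h5

theorem zs_finite (n : ℕ) (T : ℝ) : (zs n T).Finite := by
  by_contra hinf
  have hinf : (zs n T).Infinite := hinf
  have hcomp : IsCompact (Icc (-1 : ℝ) 1 ×ℂ Icc 0 T) := isCompact_Icc.reProdIm isCompact_Icc
  have hsub : zs n T ⊆ Icc (-1 : ℝ) 1 ×ℂ Icc 0 T := by
    rintro s ⟨h1, h2, h3⟩
    have h4 := abs_le.1 (strip n s h1)
    exact ⟨⟨by linarith, by linarith⟩, ⟨h2.le, h3⟩⟩
  obtain ⟨x, hx, hacc⟩ := hinf.exists_accPt_of_subset_isCompact hcomp hsub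
  have hfreq : ∃ᶠ z in 𝓝[≠] x, iteratedDeriv n XX z = 0 := by
    rw [accPt_iff_frequently_nhdsNE] at hacc
    exact hacc.mono fun z hz => hz.1
  have hz := AnalyticOnNhd.eqOn_zero_of_preconnected_of_frequently_eq_zero
    (f := iteratedDeriv n XX) (U := univ) (fun s _ => (iter_diff n).analyticAt s)
    isPreconnected_univ (mem_univ x) hfreq
  exact iter_ne n (hz (mem_univ 1))

theorem bs_sub (n : ℕ) (T : ℝ) : bs n T ⊆ zs n T := fun _ h => ⟨h.1.1, h.2.1, h.2.2⟩

theorem bs_finite (n : ℕ) (T : ℝ) : (bs n T).Finite := (zs_finite n T).subset (bs_sub n T)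

/-! ### the real function on the line -/

def gn (n : ℕ) (u : ℝ) : ℝ := (I ^ n * iteratedDeriv n XX (I * u)).re

theorem iter_neg (n : ℕ) (z : ℂ) :
    iteratedDeriv n XX (-z) = (-1) ^ n * iteratedDeriv n XX z := by
  have h1 := iteratedDeriv_comp_neg n XX z
  have h2 : (fun x => XX (-x)) = XX := funext Pool.Agent.H24R2.JP.B1h.XX_neg
  rw [h2] at h1
  rw [h1, smul_eq_mul, ← mul_assoc, ← mul_pow]
  norm_num

theorem gn_real (n : ℕ) (u : ℝ) :
    (starRingEnd ℂ) (I ^ n * iteratedDeriv n XX (I * u)) = I ^ n * iteratedDeriv n XX (I * u) := by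
  have h1 := Pool.Agent.H24R2.JP.B1h.iter_conj XX Pool.Agent.H24R2.JP.B1h.XX_conj n (I * u)
  rw [map_mul, ← h1, map_pow, conj_I, map_mul, conj_I, conj_ofReal]
  rw [show -I * (u : ℂ) = -(I * u) by ring, iter_neg, ← mul_assoc, ← mul_pow]
  congr 2
  ring

theorem gn_zero (n : ℕ) (u : ℝ) : gn n u = 0 ↔ iteratedDeriv n XX (I * u) = 0 := by
  have h1 := Complex.conj_eq_iff_re.1 (gn_real n u)
  unfold gn
  constructor
  · intro h
    rw [h] at h1
    have h2 : I ^ n * iteratedDeriv n XX (I * u) = 0 := by rw [← h1]; simp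
    exact (mul_eq_zero.1 h2).resolve_left (pow_ne_zero _ I_ne_zero)
  · intro h
    rw [h, mul_zero, zero_re]

theorem gn_deriv (n : ℕ) (u : ℝ) : HasDerivAt (gn n) (gn (n + 1) u) u := by
  have h1 : HasDerivAt (iteratedDeriv n XX) (iteratedDeriv (n + 1) XX (I * u)) (I * (u : ℂ)) := by
    rw [iteratedDeriv_succ]
    exact (iter_diff n (I * u)).hasDerivAt
  have h2 : HasDerivAt (fun w : ℂ => I * w) I (u : ℂ) := by
    simpa using (hasDerivAt_id (u : ℂ)).const_mul I
  have h3 : HasDerivAt (fun w : ℂ => I ^ n * iteratedDeriv n XX (I * w))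
      (I ^ n * (iteratedDeriv (n + 1) XX (I * u) * I)) (u : ℂ) :=
    (h1.comp (u : ℂ) h2).const_mul _
  have h4 := h3.real_of_complex
  refine h4.congr_deriv ?_
  unfold gn
  congr 1
  rw [pow_succ]
  ring

/-- the zeros on the line with ordinate in `(a, b]` -/
def ln (n : ℕ) (a b : ℝ) : Set ℝ := {u : ℝ | a < u ∧ u ≤ b ∧ gn n u = 0}

theorem ln_finite (n : ℕ) {a : ℝ} (ha : 0 ≤ a) (b : ℝ) : (ln n a b).Finite := by
  have h1 : (fun u : ℝ => (I * u : ℂ)) '' (ln n a b) ⊆ zs n b := by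
    rintro _ ⟨u, ⟨h1, h2, h3⟩, rfl⟩
    refine ⟨(gn_zero n u).1 h3, ?_, ?_⟩
    · simp; linarith
    · simp; exact h2
  refine Set.Finite.of_finite_image ((zs_finite n b).subset h1) ?_
  intro u _ v _ h
  simp only at h
  have := mul_left_cancel₀ I_ne_zero h
  exact_mod_cast this

theorem ln_step (n : ℕ) {a : ℝ} (ha : 0 ≤ a) (b : ℝ) : (ln n a b).ncard ≤ (ln (n + 1) a b).ncard + 1 := by
  classical
  rw [Set.ncard_eq_toFinset_card _ (ln_finite n ha b),
    Set.ncard_eq_toFinset_card _ (ln_finite (n + 1) ha b)]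
  refine Pool.Agent.Zk2.XP.interlace _ _ _ rfl ?_
  intro x hx y hy hxy
  rw [Set.Finite.mem_toFinset] at hx hy
  obtain ⟨c, hc, hc2⟩ := exists_hasDerivAt_eq_zero (f := gn n) (f' := gn (n + 1)) hxy
    (fun u _ => (gn_deriv n u).continuousAt.continuousWithinAt) (by rw [hx.2.2, hy.2.2])
    (fun u _ => gn_deriv n u)
  refine ⟨c, ?_, hc.1, hc.2⟩
  rw [Set.Finite.mem_toFinset]
  exact ⟨hx.1.trans hc.1, hc.2.le.trans hy.2.1, hc2⟩

theorem ln_iter (n : ℕ) {a : ℝ} (ha : 0 ≤ a) (b : ℝ) : (ln 0 a b).ncard ≤ (ln n a b).ncard + n := by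
  induction n with
  | zero => simp
  | succ n ih =>
    have := ln_step n ha b
    omega

open H370 in
/-- a positive proportion of the zeros of zeta is on the line -/
theorem ns_le {a b : ℝ} (ha : 0 ≤ a) : Ns riemannZeta a b ≤ (ln 0 a b).ncard := by
  unfold Ns
  refine Set.ncard_le_ncard_of_injOn (fun s : ℂ => s.im) ?_ ?_ (ln_finite 0 ha b)
  · rintro s ⟨⟨h1, h2, h3, h4, h5⟩, h6, h7⟩
    refine ⟨h3, h4, ?_⟩
    rw [gn_zero, iteratedDeriv_zero]
    have hs : s = 1 / 2 + I * (s.im : ℂ) := by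
      apply Complex.ext
      · simp [h6]
      · simp
    have h8 := Pool.Agent.H24R2.JP.ZetaTask.part1 (I * (s.im : ℂ)) (by simp; linarith)
    rw [← hs, h5, mul_zero] at h8
    exact h8
  · rintro s ⟨_, h6, _⟩ s' ⟨_, h6', _⟩ h
    exact Complex.ext (h6.trans h6'.symm) h

theorem ln_le {n : ℕ} {a b : ℝ} (ha : 0 ≤ a) :
    (ln n a b).ncard ≤ ∑ᶠ s ∈ zs n b, analyticOrderNatAt (iteratedDeriv n XX) s := by
  classical
  rw [finsum_mem_eq_finite_toFinset_sum _ (zs_finite n b),
    Set.ncard_eq_toFinset_card _ (ln_finite n ha b), Finset.card_eq_sum_ones]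
  have h1 : ∑ u ∈ (ln_finite n ha b).toFinset, 1 =
      ∑ s ∈ ((ln_finite n ha b).toFinset.image (fun u : ℝ => (I * u : ℂ))), 1 := by
    rw [Finset.sum_image]
    intro u _ v _ h
    simp only at h
    have := mul_left_cancel₀ I_ne_zero h
    exact_mod_cast this
  rw [h1]
  have hsub : (ln_finite n ha b).toFinset.image (fun u : ℝ => (I * u : ℂ)) ⊆
      (zs_finite n b).toFinset := by
    intro s hs
    rw [Finset.mem_image] at hs
    obtain ⟨u, hu, rfl⟩ := hs
    rw [Set.Finite.mem_toFinset] at hu ⊢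
    refine ⟨(gn_zero n u).1 hu.2.2, ?_, ?_⟩
    · simp; linarith [hu.1]
    · simp; exact hu.2.1
  refine (Finset.sum_le_sum_of_subset hsub).trans (Finset.sum_le_sum fun s hs => ?_)
  rw [Set.Finite.mem_toFinset] at hs
  have := one_le_wt n s hs.1
  unfold wt at this
  exact_mod_cast this

open H370 in
/-- the lower bound, for `n ≤ c T log T` -/
theorem low_strong : ∃ c T0 : ℝ, 0 < c ∧ 2 ≤ T0 ∧ ∀ (T : ℝ) (n : ℕ), T0 ≤ T → (n : ℝ) ≤ c * T * Real.log T →
    c * T * Real.log T ≤ ((∑ᶠ s ∈ zs n T, analyticOrderNatAt (iteratedDeriv n XX) s : ℕ) : ℝ) := by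
  obtain ⟨δ, hδ, hmain⟩ := main_uniform
  obtain ⟨T1, hT1⟩ := hmain riemannZeta good_zeta
  obtain ⟨C, T2, hC, hT2, h2⟩ := nn_asymp good_zeta
  have hev : ∀ᶠ T : ℝ in atTop, 2 * C * (2 * Real.pi) + 2 ≤ Real.log T :=
    Real.tendsto_log_atTop.eventually_ge_atTop _
  obtain ⟨T3, hT3⟩ := hev.exists_forall_of_atTop
  have hpi := Real.pi_pos
  refine ⟨δ / (64 * Real.pi), 2 * max (max T1 T2) (max T3 10), by positivity, ?_, ?_⟩
  · have : (10 : ℝ) ≤ max (max T1 T2) (max T3 10) := (le_max_right _ _).trans (le_max_right _ _)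
    linarith
  · intro T n hT hn
    set U : ℝ := T / 2 with hU
    have hUm : max (max T1 T2) (max T3 10) ≤ U := by rw [hU]; linarith
    have hU1 : T1 ≤ U := ((le_max_left _ _).trans (le_max_left _ _)).trans hUm
    have hU2 : T2 ≤ U := ((le_max_right _ _).trans (le_max_left _ _)).trans hUm
    have hU3 : T3 ≤ U := ((le_max_left _ _).trans (le_max_right _ _)).trans hUm
    have hU10 : 10 ≤ U := ((le_max_right _ _).trans (le_max_right _ _)).trans hUm
    have hT' : 2 * U = T := by rw [hU]; ring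
    have a1 := (hT1 U hU1).1
    have a2 := (abs_le.1 (h2 U hU2 U (2 * U) le_rfl (by linarith) (by linarith) le_rfl)).1
    have a3 := hT3 U hU3
    have hcm : cMTinv < 2 := by have := cMTinv_lt; linarith
    have hlog : Real.log T ≤ 2 * Real.log U := by
      rw [← hT', Real.log_mul (by norm_num) (by linarith)]
      have : Real.log 2 ≤ Real.log U := Real.log_le_log (by norm_num) (by linarith)
      linarith
    have hlU : 0 < Real.log U := Real.log_pos (by linarith)
    have hUp : 0 < U := by linarith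
    have a4 : U * Real.log U / (4 * Real.pi) ≤ (NN riemannZeta U (2 * U) : ℝ) := by
      have e1 : C * U ≤ U * Real.log U / (4 * Real.pi) := by
        rw [le_div_iff₀ (by positivity)]
        have : C * (4 * Real.pi) ≤ Real.log U := by nlinarith
        calc C * U * (4 * Real.pi) = U * (C * (4 * Real.pi)) := by ring
          _ ≤ U * Real.log U := mul_le_mul_of_nonneg_left this hUp.le
      have e2 : U * Real.log U / (2 * Real.pi) = 2 * (U * Real.log U / (4 * Real.pi)) := by
        field_simp; ring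
      linarith
    have a5 : δ * (U * Real.log U / (4 * Real.pi)) ≤ (Ns riemannZeta U (2 * U) : ℝ) := by
      refine le_trans ?_ a1
      apply mul_le_mul _ a4 (by positivity) (by linarith)
      linarith
    have a6 : (Ns riemannZeta U (2 * U) : ℝ) ≤ ((ln n U (2 * U)).ncard : ℝ) + n := by
      exact_mod_cast (ns_le (b := 2 * U) hUp.le).trans (ln_iter n hUp.le (2 * U))
    have a7 : ((ln n U (2 * U)).ncard : ℝ) ≤
        ((∑ᶠ s ∈ zs n (2 * U), analyticOrderNatAt (iteratedDeriv n XX) s : ℕ) : ℝ) := by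
      exact_mod_cast ln_le hUp.le
    rw [hT'] at a5 a6 a7
    have a8 : 2 * (δ / (64 * Real.pi) * T * Real.log T) ≤ δ * (U * Real.log U / (4 * Real.pi)) := by
      have e3 : δ * (U * Real.log U / (4 * Real.pi)) =
          4 * (δ / (64 * Real.pi) * (2 * U) * (2 * Real.log U)) := by
        field_simp; ring
      rw [e3, hT']
      have hT0 : 0 ≤ T := by linarith
      have : 0 ≤ δ / (64 * Real.pi) * T := by positivity
      nlinarith
    linarith

theorem low : ∃ c T0 : ℝ, 0 < c ∧ 2 ≤ T0 ∧ ∀ (T : ℝ) (n : ℕ), T0 ≤ T → (n : ℝ) ≤ Real.log T →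
    c * T * Real.log T ≤ ((∑ᶠ s ∈ zs n T, analyticOrderNatAt (iteratedDeriv n XX) s : ℕ) : ℝ) := by
  obtain ⟨c, T0, hc, hT0, h⟩ := low_strong
  refine ⟨c, max T0 (1 / c), hc, hT0.trans (le_max_left _ _), fun T n hT hn => ?_⟩
  refine h T n ((le_max_left _ _).trans hT) (hn.trans ?_)
  have h1 : 1 / c ≤ T := (le_max_right _ _).trans hT
  have h2 : 1 ≤ c * T := by
    rw [div_le_iff₀ hc] at h1
    linarith
  have h3 : 0 ≤ Real.log T := Real.log_nonneg (by linarith [hT0.trans ((le_max_left T0 (1 / c)).trans hT)])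
  nlinarith

/-- the bad zeros are at most all the zeros -/
theorem bs_le (n : ℕ) (T : ℝ) : ∑ᶠ s ∈ bs n T, analyticOrderNatAt (iteratedDeriv n XX) s ≤
    ∑ᶠ s ∈ zs n T, analyticOrderNatAt (iteratedDeriv n XX) s := by
  rw [finsum_mem_eq_finite_toFinset_sum _ (zs_finite n T),
    finsum_mem_eq_finite_toFinset_sum _ (bs_finite n T)]
  apply Finset.sum_le_sum_of_subset
  intro s hs
  rw [Set.Finite.mem_toFinset] at hs ⊢
  exact bs_sub n T hs

/-- the proportion form -/
theorem proportion (κ : ℝ) (hD : DHB κ) : ∃ C : ℝ, 0 < C ∧ ∀ (n : ℕ) (T : ℝ),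
    ((∑ᶠ s ∈ bs n T, analyticOrderNatAt (iteratedDeriv n XX) s : ℕ) : ℝ) ≤
      C * Real.exp (-(κ * n)) * ((∑ᶠ s ∈ zs n T, analyticOrderNatAt (iteratedDeriv n XX) s : ℕ) : ℝ) := by
  obtain ⟨c, T0, hc, hT0, hlow⟩ := low
  obtain ⟨N, hN⟩ := Pool.Agent.Zk5.DH.upto3
  obtain ⟨C, hC, hD⟩ := hD
  -- bounded `n`
  set M : ℕ := max N (⌈Real.log T0⌉₊ + 1) with hM
  refine ⟨Real.exp (|κ| * M) + C / c, by positivity, fun n T => ?_⟩
  set A : ℝ := ((∑ᶠ s ∈ zs n T, analyticOrderNatAt (iteratedDeriv n XX) s : ℕ) : ℝ) with hA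
  have hA0 : 0 ≤ A := Nat.cast_nonneg _
  have hBA : ((∑ᶠ s ∈ bs n T, analyticOrderNatAt (iteratedDeriv n XX) s : ℕ) : ℝ) ≤ A := by
    rw [hA]
    exact_mod_cast bs_le n T
  have he := Real.exp_pos (-(κ * n))
  rcases le_or_gt T 0 with hT0' | hTpos
  · have hempty : bs n T = ∅ := by
      rw [Set.eq_empty_iff_forall_notMem]
      rintro s ⟨h1, h2, h3⟩
      linarith
    rw [hempty, finsum_mem_empty]
    push_cast
    positivity
  rcases le_or_gt n M with hnM | hnM
  · have h1 : 1 ≤ Real.exp (|κ| * M) * Real.exp (-(κ * n)) := by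
      rw [← Real.exp_add]
      apply Real.one_le_exp
      have h2 : (n : ℝ) ≤ M := by exact_mod_cast hnM
      have h3 : κ * n ≤ |κ| * n := mul_le_mul_of_nonneg_right (le_abs_self κ) (Nat.cast_nonneg n)
      have h4 : |κ| * n ≤ |κ| * M := mul_le_mul_of_nonneg_left h2 (abs_nonneg κ)
      linarith
    have h2 : 0 ≤ C / c * Real.exp (-(κ * n)) := by positivity
    have h3 : 1 ≤ (Real.exp (|κ| * M) + C / c) * Real.exp (-(κ * n)) := by nlinarith
    nlinarith
  · have hnN : N ≤ n := (le_max_left _ _).trans hnM.le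
    rcases le_or_gt (n : ℝ) (Real.log T) with hnT | hnT
    · -- `T ≥ T0`
      have h1 : Real.log T0 ≤ n := by
        have h2 : ⌈Real.log T0⌉₊ + 1 ≤ n := (le_max_right _ _).trans hnM.le
        have h3 : Real.log T0 ≤ ⌈Real.log T0⌉₊ := Nat.le_ceil _
        have h4 : ((⌈Real.log T0⌉₊ + 1 : ℕ) : ℝ) ≤ n := by exact_mod_cast h2
        push_cast at h4
        linarith
      have hT0' : 0 < Real.log T0 := Real.log_pos (by linarith)
      have hTT : T0 ≤ T := by
        rw [← Real.log_le_log_iff (by linarith) hTpos]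
        linarith
      have h2 := hD n T (hT0.trans hTT) (bs_finite n T).toFinset (by
        intro s hs
        rw [Set.Finite.mem_toFinset] at hs
        exact hs)
      have h3 := hlow T n hTT hnT
      rw [finsum_mem_eq_finite_toFinset_sum _ (bs_finite n T)]
      push_cast
      have h5 : T * Real.log T ≤ A / c := by
        rw [le_div_iff₀ hc]
        linarith
      have h6 : C * Real.exp (-(κ * n)) * T * Real.log T ≤ C / c * Real.exp (-(κ * n)) * A := by
        calc C * Real.exp (-(κ * n)) * T * Real.log T = C * Real.exp (-(κ * n)) * (T * Real.log T) := by ring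
          _ ≤ C * Real.exp (-(κ * n)) * (A / c) := mul_le_mul_of_nonneg_left h5 (by positivity)
          _ = C / c * Real.exp (-(κ * n)) * A := by ring
      have h7 : 0 ≤ Real.exp (|κ| * M) * Real.exp (-(κ * n)) * A := by positivity
      linarith
    · -- no bad zeros
      have hempty : bs n T = ∅ := by
        rw [Set.eq_empty_iff_forall_notMem]
        rintro s ⟨h1, h2, h3⟩
        refine hN n hnN s ?_ h1
        rw [abs_of_pos h2]
        have hTp : 0 < T := h2.trans_le h3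
        have h4 : T < Real.exp n := by
          rwa [← Real.log_lt_iff_lt_exp hTp]
        have h5 : Real.exp n ≤ Real.exp (3 * n) := by
          apply Real.exp_le_exp.2
          have : (0 : ℝ) ≤ n := Nat.cast_nonneg n
          linarith
        linarith
      rw [hempty, finsum_mem_empty]
      push_cast
      positivity

end

end Pool.Agent.Zk69.DH
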