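import Pool.Agent.Zk1.DH.Spec
import Pool.Agent.H986R2.K4.HHb
import Pool.Agent.H986R2.K4.Norm
import Pool.Agent.H986R2.K4.Win

set_option autoImplicit false

/-!
Basic facts for the assembly of the density hypothesis for the derivatives of `ξ`.
-/

namespace Pool.Agent.Zk69.DH

open Complex Filter Topology MeasureTheory Set
open Pool.Agent.H24R2.JP (XX HH Om)
open Pool.Agent.H24R2.DZ (bad ra)
open Pool.Agent.Zk1.DH

/-! ## The Euler product -/

lemma one_sub_ne {p : ℕ} (hp : p.Prime) {s : ℂ} (hs : 0 < s.re) : (1 : ℂ) - (p : ℂ) ^ (-s) ≠ 0 := by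
  intro h
  have h1 : (p : ℂ) ^ (-s) = 1 := (sub_eq_zero.mp h).symm
  have h2 : ‖(p : ℂ) ^ (-s)‖ < 1 := by
    rw [Complex.norm_natCast_cpow_of_pos hp.pos]
    exact Real.rpow_lt_one_of_one_lt_of_neg (by exact_mod_cast hp.one_lt) (by simpa using hs)
  rw [h1] at h2
  simp at h2

lemma PP_ne (X : ℝ) {s : ℂ} (hs : 0 < s.re) : PP X s ≠ 0 := by
  unfold PP
  refine Finset.prod_ne_zero_iff.mpr ?_
  intro p hp
  exact inv_ne_zero (one_sub_ne (Finset.mem_filter.mp hp).2 hs)

lemma PP_diff (X : ℝ) {s : ℂ} (hs : 0 < s.re) : DifferentiableAt ℂ (PP X) s := by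
  unfold PP
  refine DifferentiableAt.fun_finsetProd (fun p hp => ?_)
  have hpp := (Finset.mem_filter.mp hp).2
  refine DifferentiableAt.inv ?_ (one_sub_ne hpp hs)
  refine (differentiableAt_const _).sub ?_
  refine DifferentiableAt.const_cpow differentiableAt_id.neg (Or.inl ?_)
  exact_mod_cast hpp.ne_zero

/-! ## Rough blocks -/

lemma DD_diff (X A B : ℝ) : Differentiable ℂ (DD X A B) := by
  unfold DD
  refine Differentiable.fun_sum (fun r hr => ?_)
  intro s
  by_cases h0 : r = 0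
  · exfalso
    subst h0
    have := (Finset.mem_filter.mp hr).1
    simp at this
  · exact DifferentiableAt.const_cpow differentiableAt_id.neg (Or.inl (by exact_mod_cast h0))

lemma DD_add (X A B C : ℝ) (s : ℂ) (h1 : A ≤ B) (h2 : B ≤ C) :
    DD X A C s = DD X A B s + DD X B C s := by
  unfold DD rough
  rw [← Finset.sum_union]
  · congr 1
    rw [← Finset.filter_union]
    congr 1
    ext r
    simp only [Finset.mem_Ioc, Finset.mem_union]
    have h3 := Nat.floor_mono h1
    have h4 := Nat.floor_mono h2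
    omega
  · refine Finset.disjoint_filter_filter ?_
    rw [Finset.disjoint_left]
    intro r hr hr'
    simp only [Finset.mem_Ioc] at hr hr'
    omega

lemma DD_self (X A : ℝ) (s : ℂ) : DD X A A s = 0 := by
  unfold DD rough
  simp

lemma DD_blocks (T : ℝ) (hT : 1 ≤ T) (X : ℝ) (s : ℂ) (K0 : ℕ) (hK : 2 ≤ K0) :
    DD X (T ^ (1 / K0 : ℝ)) (T ^ (1 / 2 : ℝ)) s =
      ∑ k ∈ Finset.Ico 2 K0, DD X (T ^ (1 / ((k : ℝ) + 1))) (T ^ (1 / (k : ℝ))) s := by
  induction K0, hK using Nat.le_induction with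
  | base => simp [DD_self]
  | succ K hK ih =>
    rw [Finset.sum_Ico_succ_top hK, ← ih]
    have hK0 : (0 : ℝ) < K := by exact_mod_cast (by omega : 0 < K)
    have hK2 : (2 : ℝ) ≤ K := by exact_mod_cast hK
    rw [DD_add X (T ^ (1 / ((K + 1 : ℕ) : ℝ))) (T ^ (1 / (K : ℝ))) (T ^ (1 / 2 : ℝ)) s]
    · push_cast
      ring
    · refine Real.rpow_le_rpow_of_exponent_le hT ?_
      push_cast
      exact one_div_le_one_div_of_le hK0 (by linarith)
    · refine Real.rpow_le_rpow_of_exponent_le hT ?_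
      exact one_div_le_one_div_of_le (by norm_num) hK2

/-! ## The cone -/

lemma wid_mono_e {T x0 A e e' x : ℝ} (hL : 0 ≤ Real.log T) (hA : 0 ≤ A * x0) (hx : x0 ≤ x) (he : e' ≤ e) :
    wid T x0 A e' x ≤ wid T x0 A e x := by
  unfold wid
  refine mul_le_mul_of_nonneg_left ?_ hA
  refine Real.exp_le_exp.mpr ?_
  refine mul_le_mul_of_nonneg_right ?_ hL
  exact mul_le_mul_of_nonneg_right he (by linarith)

lemma ZC_mono {T x0 A e e' C1 C1' t : ℝ} (hL : 0 ≤ Real.log T) (hA : 0 ≤ A * x0) (he : e' ≤ e)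
    (hC : C1 ≤ C1') (h : ZC T x0 A e C1 t) : ZC T x0 A e' C1' t := by
  refine ⟨fun z hz hi => h.ne z hz (hi.trans (wid_mono_e hL hA hz he)), fun z hz hi => ?_⟩
  refine (h.ld z hz (hi.trans (wid_mono_e hL hA hz he))).trans ?_
  exact mul_le_mul_of_nonneg_right hC hL

/-! ## Growth from the logarithmic derivative -/

lemma grow_seg (F : ℂ → ℂ) (n η : ℝ) (p q : ℂ) (hη : 0 ≤ η) (hn : 0 ≤ n)
    (h : ∀ x ∈ Icc (0 : ℝ) 1, DifferentiableAt ℂ F (p + x * (q - p)) ∧ F (p + x * (q - p)) ≠ 0 ∧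
      ‖logDeriv F (p + x * (q - p)) - n‖ ≤ η * n) :
    ‖F q‖ ≤ Real.exp (n * (q.re - p.re) + η * n * ‖q - p‖) * ‖F p‖ := by
  -- work with every κ slightly larger
  have key : ∀ κ : ℝ, η * n * ‖q - p‖ < κ → ‖F q‖ ≤ Real.exp (n * (q.re - p.re) + κ) * ‖F p‖ := by
    intro κ hκ
    have hκ0 : 0 < κ := lt_of_le_of_lt (by positivity) hκ
    have key := SG.GamAux.gron
      (fun x : ℝ => F (p + x * (q - p)) * cexp (-((x : ℂ) * (n * (q - p)))))
      (fun x : ℝ => F (p + x * (q - p)) * cexp (-((x : ℂ) * (n * (q - p)))) *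
        ((logDeriv F (p + x * (q - p)) - n) * (q - p))) κ hκ0 ?_ ?_
    · have h1 := key.1
      simp only [ofReal_one, one_mul, ofReal_zero, zero_mul, add_zero, neg_zero, Complex.exp_zero,
        mul_one, norm_mul, Complex.norm_exp, Complex.neg_re, Complex.re_ofReal_mul] at h1
      have e1 : p + (q - p) = q := by ring
      rw [e1] at h1
      have h2 : ‖F q‖ = ‖F q‖ * Real.exp (-(n * (q - p).re)) * Real.exp (n * (q - p).re) := by
        rw [mul_assoc, ← Real.exp_add]
        simp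
      rw [h2]
      calc ‖F q‖ * Real.exp (-(n * (q - p).re)) * Real.exp (n * (q - p).re)
          ≤ (Real.exp κ * ‖F p‖) * Real.exp (n * (q - p).re) := by gcongr
        _ = Real.exp (n * (q.re - p.re) + κ) * ‖F p‖ := by
            rw [Real.exp_add, Complex.sub_re]; ring
    · intro x hx
      have h0 : HasDerivAt (fun x : ℝ => (x : ℂ)) 1 x := Complex.ofRealCLM.hasDerivAt
      have hlin : HasDerivAt (fun x : ℝ => p + (x : ℂ) * (q - p)) (q - p) x := by
        simpa using (h0.mul_const (q - p)).const_add p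
      obtain ⟨hd, hne, -⟩ := h x hx
      have hF : HasDerivAt F (F (p + x * (q - p)) * logDeriv F (p + x * (q - p))) (p + x * (q - p)) := by
        have := hd.hasDerivAt
        rwa [show deriv F (p + x * (q - p)) = F (p + x * (q - p)) * logDeriv F (p + x * (q - p)) from by
          rw [logDeriv_apply, mul_div_cancel₀ _ hne]] at this
      have h1 : HasDerivAt (fun x : ℝ => F (p + x * (q - p)))
          (F (p + x * (q - p)) * logDeriv F (p + x * (q - p)) * (q - p)) x :=
        HasDerivAt.comp x hF hlin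
      have h2 : HasDerivAt (fun x : ℝ => cexp (-((x : ℂ) * (n * (q - p)))))
          (cexp (-((x : ℂ) * (n * (q - p)))) * (-(n * (q - p)))) x := by
        have h3 : HasDerivAt (fun x : ℝ => -((x : ℂ) * (n * (q - p)))) (-(1 * (n * (q - p)))) x :=
          (h0.mul_const ((n : ℂ) * (q - p))).neg
        have h4 := h3.cexp
        simpa using h4
      refine (h1.mul h2).congr_deriv ?_
      ring
    · intro x hx
      obtain ⟨-, -, h2⟩ := h x hx
      rw [norm_mul, norm_mul (_ - _), mul_comm]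
      have h3 : ‖logDeriv F (p + x * (q - p)) - n‖ * ‖q - p‖ ≤ κ :=
        (mul_le_mul_of_nonneg_right h2 (norm_nonneg _)).trans hκ.le
      gcongr
  refine le_of_forall_pos_le_add (fun ε hε => ?_)
  -- let κ tend to the limit
  have hcont : Tendsto (fun κ : ℝ => Real.exp (n * (q.re - p.re) + κ) * ‖F p‖)
      (𝓝[>] (η * n * ‖q - p‖)) (𝓝 (Real.exp (n * (q.re - p.re) + η * n * ‖q - p‖) * ‖F p‖)) := by
    refine Tendsto.mono_left ?_ nhdsWithin_le_nhds
    exact (Continuous.tendsto (by fun_prop) _)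
  have h5 : ‖F q‖ ≤ Real.exp (n * (q.re - p.re) + η * n * ‖q - p‖) * ‖F p‖ := by
    refine ge_of_tendsto hcont ?_
    filter_upwards [self_mem_nhdsWithin] with κ hκ
    exact key κ hκ
  linarith

end Pool.Agent.Zk69.DH
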