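import Pool.Agent.Zk69.DH.Basic

set_option autoImplicit false

/-!
The deterministic part: good heights give the normalised local situation `LH`.
-/

namespace Pool.Agent.Zk69.DH

open Complex Filter Topology MeasureTheory Set
open Pool.Agent.H24R2.JP (XX HH Om)
open Pool.Agent.H24R2.DZ (bad ra)
open Pool.Agent.Zk1.DH

noncomputable def FX (t r : ℝ) (w : ℂ) : ℂ := XX (I * t + r * w)

noncomputable def F0 (X t r : ℝ) (w : ℂ) : ℂ := HH (I * t + r * w) * PP X (1 / 2 + (I * t + r * w))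

noncomputable def Dk (X T t r : ℝ) (k : ℕ) (w : ℂ) : ℂ :=
  DD X (T ^ (1 / ((k : ℝ) + 1))) (T ^ (1 / (k : ℝ))) (1 / 2 + (I * t + r * w))

lemma p_re (t r : ℝ) (w : ℂ) : (I * t + r * w : ℂ).re = r * w.re := by simp
lemma p_im (t r : ℝ) (w : ℂ) : (I * t + r * w : ℂ).im = t + r * w.im := by simp

lemma hp_re (t r : ℝ) (w : ℂ) : (1 / 2 + (I * t + r * w) : ℂ).re = 1 / 2 + r * w.re := by
  rw [Complex.add_re, p_re]; norm_num

lemma aff_deriv (t r : ℝ) (w : ℂ) : HasDerivAt (fun w : ℂ => I * t + (r : ℂ) * w) (r : ℂ) w := by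
  have := ((hasDerivAt_id w).const_mul (r : ℂ)).const_add (I * (t : ℂ))
  rw [mul_one] at this
  exact this

lemma aff_deriv' (t r : ℝ) (w : ℂ) : HasDerivAt (fun w : ℂ => 1 / 2 + (I * t + (r : ℂ) * w)) (r : ℂ) w :=
  (aff_deriv t r w).const_add _

lemma F0_reg {X t r : ℝ} {w : ℂ} (hw : 0 ≤ r * w.re) (h1 : DifferentiableAt ℂ HH (I * t + r * w))
    (h2 : HH (I * t + r * w) ≠ 0) :
    DifferentiableAt ℂ (F0 X t r) w ∧ F0 X t r w ≠ 0 ∧
    logDeriv (F0 X t r) w = r * (logDeriv HH (I * t + r * w) + logDeriv (PP X) (1 / 2 + (I * t + r * w))) := by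
  have hre : 0 < (1 / 2 + (I * t + r * w) : ℂ).re := by rw [hp_re]; linarith
  have hP := PP_diff X hre
  have hPn := PP_ne X hre
  have e1 : HasDerivAt (fun w : ℂ => HH (I * t + r * w)) (deriv HH (I * t + r * w) * r) w :=
    HasDerivAt.comp (h₂ := HH) w h1.hasDerivAt (aff_deriv t r w)
  have e2 : HasDerivAt (fun w : ℂ => PP X (1 / 2 + (I * t + r * w)))
      (deriv (PP X) (1 / 2 + (I * t + r * w)) * r) w :=
    HasDerivAt.comp (h₂ := PP X) w hP.hasDerivAt (aff_deriv' t r w)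
  have e3 := e1.mul e2
  refine ⟨e3.differentiableAt, mul_ne_zero h2 hPn, ?_⟩
  have e4 : deriv (F0 X t r) w = _ := e3.deriv
  rw [logDeriv_apply, e4, logDeriv_apply, logDeriv_apply]
  unfold F0
  generalize PP X (1 / 2 + (I * t + r * w)) = P at *
  generalize deriv (PP X) (1 / 2 + (I * t + r * w)) = P' at *
  generalize HH (I * t + r * w) = h at *
  generalize deriv HH (I * t + r * w) = h' at *
  field_simp

lemma FX_eq {t r : ℝ} {w : ℂ} (h : 0 < t + r * w.im) :
    FX t r w = HH (I * t + r * w) * riemannZeta (1 / 2 + (I * t + r * w)) := by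
  unfold FX
  refine Pool.Agent.H24R2.JP.ZetaTask.part1 _ ?_
  simpa [p_im] using h

/-- The deterministic theorem. -/
theorem det {κ ε η B C3 R ρ Y ρ2 K C5 C2 δ L : ℝ} {K0 q n : ℕ} {X T t r : ℝ}
    (hX : X = T ^ (1 / K0 : ℝ)) (hT : 1 ≤ T) (hK0 : 3 ≤ K0) (hn : 1 ≤ n) (hε : 0 ≤ ε) (hε1 : ε ≤ 1)
    (hκ : 0 < κ) (hκ1 : κ ≤ 1 / 4) (hR : 1 ≤ R) (hY : 1 ≤ Y) (hρ2 : 1 ≤ ρ2) (hK : ρ2 ≤ K) (hKρ : K ≤ ρ)
    (hC5 : 0 ≤ C5)
    (hr : 0 < r) (hrL : r * L = 2 * n) (hη : 0 < η) (hηQ : η * (ρ + R + Y + 3) ≤ 1)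
    (him : ∀ y : ℝ, |y| ≤ Y + 1 → 0 < t + r * y)
    (hδ : 0 < δ) (hδQ : 4 * δ * (ρ + R + 1) ≤ 1)
    (hHH : ∀ w : ℂ, 1 - κ ≤ w.re → w.re ≤ ρ + R + 1 → |w.im| ≤ Y + 1 →
      DifferentiableAt ℂ HH (I * t + r * w) ∧ HH (I * t + r * w) ≠ 0 ∧
      ‖(r : ℂ) * logDeriv HH (I * t + r * w) - n‖ ≤ η / 5 * n)
    (hPP : ∀ w : ℂ, 1 - κ ≤ w.re → w.re ≤ ρ + R + 1 → |w.im| ≤ Y + 1 →
      ‖logDeriv (PP X) (1 / 2 + (I * t + r * w))‖ ≤ 2 * η / 5 * L)
    (hD : ∀ k ∈ Finset.Ico 2 K0, ∀ w : ℂ, 1 - κ ≤ w.re → w.re ≤ ρ + R + 1 → |w.im| ≤ Y + 1 →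
      ‖Dk X T t r k w‖ ≤ (((k : ℝ) + 1) / (k - 1)) ^ ((1 - ε) * n) * Real.exp (-(2 * n * w.re / (k + 1))))
    (hZP : ∀ w : ℂ, ρ2 ≤ w.re → w.re ≤ ρ + R + 1 → |w.im| ≤ Y + 1 →
      ‖riemannZeta (1 / 2 + (I * t + r * w))‖ ≤ Real.exp C2 * ‖PP X (1 / 2 + (I * t + r * w))‖ ∧
      ‖riemannZeta (1 / 2 + (I * t + r * w)) - PP X (1 / 2 + (I * t + r * w)) *
        (1 + DD X X (T ^ (1 / 2 : ℝ)) (1 / 2 + (I * t + r * w)))‖ ≤
      ‖PP X (1 / 2 + (I * t + r * w))‖ * Real.exp (C2 + 4 * n + 2 * ρ2 * n) * (w.re / ρ2) ^ q *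
        Real.exp (-((1 - 4 * δ) * n * w.re)))
    (hNG : ∀ w : ℂ, |w.re| ≤ max (R + 2) ρ2 → |w.im| ≤ Y + 1 →
      ‖XX (I * t + r * w)‖ ≤ ‖XX (I * ((t + r * w.im : ℝ) : ℂ) + (r * K : ℝ))‖ * Real.exp (C5 * n))
    (hn1 : C2 ≤ n) (hn2 : (K0 : ℝ) ≤ Real.exp n) (hn3 : (ρ + R + 1) ^ q ≤ Real.exp n)
    (hB : C5 + K + 2 * ρ2 + 10 ≤ B) (hC3 : C5 + K + 1 ≤ C3) :
    LH κ ε η B C3 R ρ Y K0 n (FX t r) (F0 X t r) (Dk X T t r) := by
  have hn0 : (0 : ℝ) < n := by exact_mod_cast hn
  have hn1' : (1 : ℝ) ≤ n := by exact_mod_cast hn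
  -- regularity
  have hreg : ∀ w : ℂ, 1 - κ ≤ w.re → w.re ≤ ρ + R + 1 → |w.im| ≤ Y + 1 →
      DifferentiableAt ℂ (F0 X t r) w ∧ F0 X t r w ≠ 0 ∧ ‖logDeriv (F0 X t r) w - n‖ ≤ η * n := by
    intro w h1 h2 h3
    obtain ⟨a1, a2, a3⟩ := hHH w h1 h2 h3
    have hw : 0 ≤ r * w.re := mul_nonneg hr.le (by linarith)
    obtain ⟨b1, b2, b3⟩ := F0_reg (X := X) hw a1 a2
    refine ⟨b1, b2, ?_⟩
    rw [b3]
    have b4 := hPP w h1 h2 h3
    calc ‖(r : ℂ) * (logDeriv HH (I * t + r * w) + logDeriv (PP X) (1 / 2 + (I * t + r * w))) - n‖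
        = ‖((r : ℂ) * logDeriv HH (I * t + r * w) - n) + (r : ℂ) * logDeriv (PP X) (1 / 2 + (I * t + r * w))‖ := by
          ring_nf
      _ ≤ ‖(r : ℂ) * logDeriv HH (I * t + r * w) - n‖ + ‖(r : ℂ) * logDeriv (PP X) (1 / 2 + (I * t + r * w))‖ :=
          norm_add_le _ _
      _ ≤ η / 5 * n + r * (2 * η / 5 * L) := by
          refine add_le_add a3 ?_
          rw [norm_mul, Complex.norm_real, Real.norm_eq_abs, abs_of_pos hr]
          exact mul_le_mul_of_nonneg_left b4 hr.le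
      _ = η / 5 * n + 2 * η / 5 * (r * L) := by ring
      _ = η * n := by rw [hrL]; ring
  have hF01 : 0 < ‖F0 X t r 1‖ := by
    refine norm_pos_iff.mpr (hreg 1 ?_ ?_ ?_).2.1
    · simp; linarith
    · simp; linarith
    · simp; linarith
  -- growth of `F0`
  have hF0 : ∀ w : ℂ, 1 - κ ≤ w.re → w.re ≤ ρ + R + 1 → |w.im| ≤ Y + 1 →
      ‖F0 X t r w‖ ≤ ‖F0 X t r 1‖ * Real.exp (n * w.re) := by
    intro w h1 h2 h3
    have h4 := grow_seg (F0 X t r) n η 1 w hη.le hn0.le ?_
    · have h5 : ‖w - 1‖ ≤ ρ + R + Y + 3 := by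
        refine (Complex.norm_le_abs_re_add_abs_im _).trans ?_
        have : |(w - 1).re| ≤ ρ + R + 1 := by
          rw [Complex.sub_re, Complex.one_re, abs_le]
          constructor <;> linarith
        have h6 : |(w - 1).im| ≤ Y + 1 := by simpa using h3
        linarith
      have h6 : η * n * ‖w - 1‖ ≤ n := by
        have : η * ‖w - 1‖ ≤ 1 := (mul_le_mul_of_nonneg_left h5 hη.le).trans hηQ
        nlinarith
      refine h4.trans ?_
      rw [mul_comm]
      refine mul_le_mul_of_nonneg_left ?_ (norm_nonneg _)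
      refine Real.exp_le_exp.mpr ?_
      rw [Complex.one_re]
      nlinarith
    · intro x hx
      refine hreg _ ?_ ?_ ?_
      · have : (1 + (x : ℂ) * (w - 1)).re = 1 + x * (w.re - 1) := by simp
        rw [this]
        nlinarith [hx.1, hx.2]
      · have : (1 + (x : ℂ) * (w - 1)).re = 1 + x * (w.re - 1) := by simp
        rw [this]
        nlinarith [hx.1, hx.2]
      · have : (1 + (x : ℂ) * (w - 1)).im = x * w.im := by simp
        rw [this, abs_mul, abs_of_nonneg hx.1]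
        nlinarith [hx.1, hx.2, abs_nonneg w.im]
  -- growth of `F`
  have hFX : ∀ w : ℂ, |w.re| ≤ max (R + 2) ρ2 → |w.im| ≤ Y + 1 →
      ‖FX t r w‖ ≤ ‖F0 X t r 1‖ * Real.exp ((C5 + K + 1) * n) := by
    intro w h1 h2
    have h3 := hNG w h1 h2
    have e0 : (I * ((t + r * w.im : ℝ) : ℂ) + (r * K : ℝ)) = I * t + r * ((K : ℂ) + w.im * I) := by
      push_cast
      ring
    set w' : ℂ := (K : ℂ) + w.im * I with hw'
    have hre : w'.re = K := by simp [hw']
    have him' : w'.im = w.im := by simp [hw']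
    rw [e0] at h3
    have h4 := (hZP w' (by rw [hre]; exact hK) (by rw [hre]; linarith) (by rw [him']; exact h2)).1
    have h5 : FX t r w' = HH (I * t + r * w') * riemannZeta (1 / 2 + (I * t + r * w')) :=
      FX_eq (by rw [him']; exact him _ h2)
    have h6 : ‖FX t r w'‖ ≤ Real.exp C2 * ‖F0 X t r w'‖ := by
      rw [h5, norm_mul]
      unfold F0
      rw [norm_mul]
      calc ‖HH (I * t + r * w')‖ * ‖riemannZeta (1 / 2 + (I * t + r * w'))‖
          ≤ ‖HH (I * t + r * w')‖ * (Real.exp C2 * ‖PP X (1 / 2 + (I * t + r * w'))‖) := by gcongr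
        _ = _ := by ring
    have h7 := hF0 w' (by rw [hre]; linarith) (by rw [hre]; linarith) (by rw [him']; exact h2)
    rw [hre] at h7
    calc ‖FX t r w‖ ≤ ‖FX t r w'‖ * Real.exp (C5 * n) := h3
      _ ≤ (Real.exp C2 * (‖F0 X t r 1‖ * Real.exp (n * K))) * Real.exp (C5 * n) := by
          gcongr
          exact h6.trans (by gcongr)
      _ = ‖F0 X t r 1‖ * Real.exp (C2 + n * K + C5 * n) := by
          rw [Real.exp_add, Real.exp_add]; ring
      _ ≤ _ := by
          refine mul_le_mul_of_nonneg_left (Real.exp_le_exp.mpr ?_) (norm_nonneg _)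
          nlinarith
  refine ⟨?_, ?_, hreg, ?_, hD, ?_, ?_⟩
  · -- differentiable
    intro w
    have hX := Pool.Agent.H24R2.JP.B1h.XX_diff
    exact (HasDerivAt.comp (h₂ := XX) w (hX (I * t + r * w)).hasDerivAt (aff_deriv t r w)).differentiableAt
  · -- symmetric
    intro z
    unfold FX
    have e1 : (I * t + r * (-((starRingEnd ℂ) z)) : ℂ) = -((starRingEnd ℂ) (I * t + r * z)) := by
      simp [map_add, map_mul]
      ring
    rw [e1]
    exact Pool.Agent.H24R2.DZ.XBAux.xsymm _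
  · -- D differentiable
    intro k hk w
    exact (HasDerivAt.comp w (DD_diff _ _ _ _).hasDerivAt (aff_deriv' t r w)).differentiableAt
  · -- the error
    intro w h1 h2 h3
    have hwpos : 0 < w.re := by linarith
    rcases le_or_gt ρ2 w.re with h4 | h4
    · obtain ⟨-, h5⟩ := hZP w h4 h2 h3
      have e1 : FX t r w - F0 X t r w * (1 + ∑ k ∈ Finset.Ico 2 K0, Dk X T t r k w) =
          HH (I * t + r * w) * (riemannZeta (1 / 2 + (I * t + r * w)) - PP X (1 / 2 + (I * t + r * w)) *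
            (1 + DD X X (T ^ (1 / 2 : ℝ)) (1 / 2 + (I * t + r * w)))) := by
        rw [FX_eq (him _ h3)]
        have e2 : DD X X (T ^ (1 / 2 : ℝ)) (1 / 2 + (I * t + r * w)) = ∑ k ∈ Finset.Ico 2 K0, Dk X T t r k w := by
          have := DD_blocks T hT X (1 / 2 + (I * t + r * w)) K0 (by omega)
          rw [← hX] at this
          exact this
        rw [e2]
        unfold F0
        ring
      rw [e1, norm_mul]
      have h6 := hF0 w h1 h2 h3
      have h7 : (w.re / ρ2) ^ q ≤ Real.exp n := by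
        refine le_trans ?_ hn3
        refine pow_le_pow_left₀ (by positivity) ?_ q
        rw [div_le_iff₀ (by linarith)]
        nlinarith
      calc ‖HH (I * t + r * w)‖ * ‖riemannZeta (1 / 2 + (I * t + r * w)) - PP X (1 / 2 + (I * t + r * w)) *
            (1 + DD X X (T ^ (1 / 2 : ℝ)) (1 / 2 + (I * t + r * w)))‖
          ≤ ‖HH (I * t + r * w)‖ * (‖PP X (1 / 2 + (I * t + r * w))‖ *
            Real.exp (C2 + 4 * n + 2 * ρ2 * n) * (w.re / ρ2) ^ q * Real.exp (-((1 - 4 * δ) * n * w.re))) := by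
            gcongr
        _ = ‖F0 X t r w‖ * (Real.exp (C2 + 4 * n + 2 * ρ2 * n) * (w.re / ρ2) ^ q *
            Real.exp (-((1 - 4 * δ) * n * w.re))) := by
            unfold F0
            rw [norm_mul]; ring
        _ ≤ (‖F0 X t r 1‖ * Real.exp (n * w.re)) * (Real.exp (C2 + 4 * n + 2 * ρ2 * n) * Real.exp n *
            Real.exp (-((1 - 4 * δ) * n * w.re))) := by
            gcongr
        _ = ‖F0 X t r 1‖ * Real.exp (n * w.re + (C2 + 4 * n + 2 * ρ2 * n) + n + (-((1 - 4 * δ) * n * w.re))) := by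
            have hexp : ∀ a b c d : ℝ, Real.exp (a + b + c + d) =
                Real.exp a * Real.exp b * Real.exp c * Real.exp d := by
              intro a b c d
              rw [Real.exp_add, Real.exp_add, Real.exp_add]
            rw [hexp]; ring
        _ ≤ ‖F0 X t r 1‖ * Real.exp (B * n) := by
            refine mul_le_mul_of_nonneg_left (Real.exp_le_exp.mpr ?_) (norm_nonneg _)
            have h8 : 4 * δ * w.re ≤ 1 :=
              (mul_le_mul_of_nonneg_left h2 (by positivity)).trans hδQ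
            have h9 : 4 * δ * w.re * n ≤ n := by nlinarith
            have h10 : (2 * ρ2 + 10) * n ≤ B * n := by
              refine mul_le_mul_of_nonneg_right ?_ hn0.le
              linarith
            nlinarith
    · have h5 := hFX w (by rw [abs_of_pos hwpos]; exact h4.le.trans (le_max_right _ _)) h3
      have h6 := hF0 w h1 h2 h3
      have h7 : ∀ k ∈ Finset.Ico 2 K0, ‖Dk X T t r k w‖ ≤ Real.exp (11 / 10 * n) := by
        intro k hk
        refine (hD k hk w h1 h2 h3).trans ?_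
        have hk2 : (2 : ℝ) ≤ k := by exact_mod_cast (Finset.mem_Ico.mp hk).1
        have g1 : (((k : ℝ) + 1) / (k - 1)) ≤ 3 := by
          rw [div_le_iff₀ (by linarith)]; linarith
        have g0 : 0 ≤ (((k : ℝ) + 1) / (k - 1)) := div_nonneg (by linarith) (by linarith)
        have g2 : (((k : ℝ) + 1) / (k - 1)) ^ ((1 - ε) * n) ≤ (3 : ℝ) ^ ((1 - ε) * n) :=
          Real.rpow_le_rpow g0 g1 (mul_nonneg (by linarith) hn0.le)
        have g3 : (3 : ℝ) ^ ((1 - ε) * n) ≤ (3 : ℝ) ^ (n : ℝ) := by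
          refine Real.rpow_le_rpow_of_exponent_le (by norm_num) ?_
          nlinarith
        have g4 : (3 : ℝ) ^ (n : ℝ) ≤ Real.exp (11 / 10 * n) := by
          have : (3 : ℝ) ≤ Real.exp (11 / 10) := by
            have h31 : (3 : ℝ) ^ 10 ≤ Real.exp 1 ^ 11 := by
              have := Real.exp_one_gt_d9
              have h32 : (2.7182818283 : ℝ) ^ 11 ≤ Real.exp 1 ^ 11 := pow_le_pow_left₀ (by norm_num) this.le _
              refine le_trans ?_ h32
              norm_num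
            have h33 : Real.exp 1 ^ 11 = Real.exp (11 / 10) ^ 10 := by
              rw [← Real.exp_nat_mul, ← Real.exp_nat_mul]; norm_num
            rw [h33] at h31
            exact le_of_pow_le_pow_left₀ (by norm_num) (Real.exp_pos _).le h31
          calc (3 : ℝ) ^ (n : ℝ) ≤ (Real.exp (11 / 10)) ^ (n : ℝ) :=
                Real.rpow_le_rpow (by norm_num) this hn0.le
            _ = _ := by rw [← Real.exp_mul]
        have g5 : Real.exp (-(2 * n * w.re / (k + 1))) ≤ 1 := by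
          rw [Real.exp_le_one_iff]
          have : 0 ≤ 2 * n * w.re / ((k : ℝ) + 1) := by positivity
          linarith
        calc (((k : ℝ) + 1) / (k - 1)) ^ ((1 - ε) * n) * Real.exp (-(2 * n * w.re / (k + 1)))
            ≤ Real.exp (11 / 10 * n) * 1 := by
              refine mul_le_mul (g2.trans (g3.trans g4)) g5 (Real.exp_pos _).le (Real.exp_pos _).le
          _ = _ := mul_one _
      have h8 : ‖∑ k ∈ Finset.Ico 2 K0, Dk X T t r k w‖ ≤ Real.exp n * Real.exp (11 / 10 * n) := by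
        refine (norm_sum_le _ _).trans ?_
        refine (Finset.sum_le_sum h7).trans ?_
        rw [Finset.sum_const, nsmul_eq_mul]
        refine mul_le_mul_of_nonneg_right ?_ (Real.exp_pos _).le
        refine le_trans ?_ hn2
        rw [Nat.card_Ico]
        exact_mod_cast Nat.sub_le _ _
      have h9 : ‖1 + ∑ k ∈ Finset.Ico 2 K0, Dk X T t r k w‖ ≤ Real.exp (3 * n) := by
        refine (norm_add_le _ _).trans ?_
        rw [norm_one]
        have : Real.exp n * Real.exp (11 / 10 * n) = Real.exp (21 / 10 * n) := by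
          rw [← Real.exp_add]; ring_nf
        rw [this] at h8
        have g1 : Real.exp (3 * n) = Real.exp (21 / 10 * n) * Real.exp (9 / 10 * n) := by
          rw [← Real.exp_add]; ring_nf
        have g2 : 9 / 10 * (n : ℝ) + 1 ≤ Real.exp (9 / 10 * n) := Real.add_one_le_exp _
        have g3 : 21 / 10 * (n : ℝ) + 1 ≤ Real.exp (21 / 10 * n) := Real.add_one_le_exp _
        rw [g1]
        nlinarith
      calc ‖FX t r w - F0 X t r w * (1 + ∑ k ∈ Finset.Ico 2 K0, Dk X T t r k w)‖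
          ≤ ‖FX t r w‖ + ‖F0 X t r w‖ * ‖1 + ∑ k ∈ Finset.Ico 2 K0, Dk X T t r k w‖ := by
            rw [← norm_mul]; exact norm_sub_le _ _
        _ ≤ ‖F0 X t r 1‖ * Real.exp ((C5 + K + 1) * n) +
            (‖F0 X t r 1‖ * Real.exp (n * w.re)) * Real.exp (3 * n) := by gcongr
        _ ≤ ‖F0 X t r 1‖ * Real.exp ((B - 1) * n) + ‖F0 X t r 1‖ * Real.exp ((B - 1) * n) := by
            refine add_le_add ?_ ?_
            · gcongr
              linarith
            · rw [mul_assoc, ← Real.exp_add]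
              gcongr
              have : (ρ2 + 3) * n ≤ (B - 1) * n := by
                refine mul_le_mul_of_nonneg_right ?_ hn0.le
                linarith
              nlinarith
        _ = ‖F0 X t r 1‖ * Real.exp ((B - 1) * n) * 2 := by ring
        _ ≤ ‖F0 X t r 1‖ * Real.exp ((B - 1) * n) * Real.exp n := by
            gcongr
            have := Real.add_one_le_exp (n : ℝ)
            linarith
        _ = ‖F0 X t r 1‖ * Real.exp (B * n) := by
            rw [mul_assoc, ← Real.exp_add]; ring_nf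
  · -- growth
    intro w h1 h2
    refine (hFX w (h1.trans (le_max_left _ _)) (by linarith)).trans ?_
    refine mul_le_mul_of_nonneg_left (Real.exp_le_exp.mpr ?_) (norm_nonneg _)
    exact mul_le_mul_of_nonneg_right hC3 hn0.le

end Pool.Agent.Zk69.DH
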