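import Pool.Agent.Zk69.DH.Near

set_option autoImplicit false

/-!
The measure of the heights at which the bounds for `P'/P` and `DD` fail in the exponential cone.
-/

namespace Pool.Agent.Zk69.DH

open Complex Filter Topology MeasureTheory Set
open Pool.Agent.H24R2.JP (XX HH Om)
open Pool.Agent.H24R2.DZ (bad ra)
open Pool.Agent.Zk1.DH

lemma dyad {C T x0 A e a : ℝ} (B : ℂ → Prop) (hC : 0 ≤ C) (hT2 : 2 ≤ T) (hx0 : 0 < x0) (he : 0 < e) (hA : 1 ≤ A)
    (hAx : A * x0 ≤ 1) (hTe : Real.exp (e * Real.log T) ≤ T / 8) (hex : 1 ≤ e * x0 * Real.log T)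
    (h : ∀ x W : ℝ, x0 ≤ x → x ≤ 1 / 2 → x ≤ W → W ≤ T / 8 →
      volume {t : ℝ | T / 2 ≤ t ∧ t ≤ 3 * T ∧ ∃ z : ℂ, x ≤ z.re ∧ z.re ≤ 2 * x ∧ |z.im - t| ≤ W ∧ B z} ≤
      ENNReal.ofReal (C * T * (W / x) * Real.exp (-(a + 2 * e * x * Real.log T)))) :
    volume {t : ℝ | T / 2 ≤ t ∧ t ≤ 3 * T ∧ ∃ z : ℂ, x0 ≤ z.re ∧ z.re ≤ 1 / 2 ∧
      |z.im - t| ≤ wid T x0 A e z.re ∧ B z} ≤ ENNReal.ofReal (2 * (C * T * A * Real.exp (-a))) := by
  have hL : 0 < Real.log T := Real.log_pos (by linarith)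
  set S : ℕ → Set ℝ := fun j => {t : ℝ | T / 2 ≤ t ∧ t ≤ 3 * T ∧ 2 ^ j * x0 ≤ 1 / 2 ∧
    ∃ z : ℂ, 2 ^ j * x0 ≤ z.re ∧ z.re ≤ 2 * (2 ^ j * x0) ∧
      |z.im - t| ≤ A * x0 * Real.exp (e * (2 * (2 ^ j * x0) - x0) * Real.log T) ∧ B z} with hS
  have hsub : {t : ℝ | T / 2 ≤ t ∧ t ≤ 3 * T ∧ ∃ z : ℂ, x0 ≤ z.re ∧ z.re ≤ 1 / 2 ∧
      |z.im - t| ≤ wid T x0 A e z.re ∧ B z} ⊆ ⋃ j, S j := by
    rintro t ⟨ht1, ht2, z, hz1, hz2, hz3, hz4⟩
    obtain ⟨j, hj1, hj2⟩ := exists_nat_pow_near (x := z.re / x0) (y := (2 : ℝ)) (by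
      rw [le_div_iff₀ hx0]; linarith) (by norm_num)
    rw [le_div_iff₀ hx0] at hj1
    rw [div_lt_iff₀ hx0] at hj2
    refine Set.mem_iUnion.mpr ⟨j, ht1, ht2, hj1.trans hz2, z, hj1, by rw [pow_succ] at hj2; linarith, ?_, hz4⟩
    refine hz3.trans ?_
    unfold wid
    refine mul_le_mul_of_nonneg_left (Real.exp_le_exp.mpr ?_) (by positivity)
    refine mul_le_mul_of_nonneg_right (mul_le_mul_of_nonneg_left ?_ he.le) hL.le
    rw [pow_succ] at hj2
    linarith
  have hbd : ∀ j, volume (S j) ≤ ENNReal.ofReal ((C * T * A * Real.exp (-a)) * (1 / 2) ^ j) := by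
    intro j
    by_cases hj : 2 ^ j * x0 ≤ 1 / 2
    · have hp : (1 : ℝ) ≤ 2 ^ j := one_le_pow₀ (by norm_num)
      have hp0 : (0 : ℝ) < 2 ^ j := by positivity
      set W := A * x0 * Real.exp (e * (2 * (2 ^ j * x0) - x0) * Real.log T) with hW
      have hx1 : x0 ≤ 2 ^ j * x0 := by nlinarith
      have hWx : 2 ^ j * x0 ≤ W := by
        have h1 : (2 : ℝ) ^ j ≤ Real.exp (e * (2 * (2 ^ j * x0) - x0) * Real.log T) := by
          have h2 : e * (2 * (2 ^ j * x0) - x0) * Real.log T = (2 * 2 ^ j - 1) * (e * x0 * Real.log T) := by ring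
          rw [h2]
          have h3 : (2 * 2 ^ j - 1 : ℝ) ≤ (2 * 2 ^ j - 1) * (e * x0 * Real.log T) := by
            have : (0 : ℝ) ≤ 2 * 2 ^ j - 1 := by linarith
            nlinarith
          have h4 := Real.add_one_le_exp ((2 * 2 ^ j - 1) * (e * x0 * Real.log T))
          linarith
        calc 2 ^ j * x0 ≤ Real.exp (e * (2 * (2 ^ j * x0) - x0) * Real.log T) * x0 := by gcongr
          _ ≤ A * (Real.exp (e * (2 * (2 ^ j * x0) - x0) * Real.log T) * x0) :=
              le_mul_of_one_le_left (by positivity) hA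
          _ = W := by rw [hW]; ring
      have hWT : W ≤ T / 8 := by
        refine le_trans ?_ hTe
        have h1 : Real.exp (e * (2 * (2 ^ j * x0) - x0) * Real.log T) ≤ Real.exp (e * Real.log T) := by
          refine Real.exp_le_exp.mpr (mul_le_mul_of_nonneg_right ?_ hL.le)
          nlinarith
        calc W ≤ 1 * Real.exp (e * Real.log T) := by
              rw [hW]
              exact mul_le_mul hAx h1 (Real.exp_pos _).le (by norm_num)
          _ = _ := one_mul _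
      refine (measure_mono ?_).trans ((h (2 ^ j * x0) W hx1 hj hWx hWT).trans
        (ENNReal.ofReal_le_ofReal ?_))
      · rintro t ⟨ht1, ht2, -, hz⟩
        exact ⟨ht1, ht2, hz⟩
      · have e1 : W / (2 ^ j * x0) = A * (1 / 2) ^ j * Real.exp (e * (2 * (2 ^ j * x0) - x0) * Real.log T) := by
          rw [hW, one_div, inv_pow]
          field_simp
        have e2 : Real.exp (e * (2 * (2 ^ j * x0) - x0) * Real.log T) *
            Real.exp (-(a + 2 * e * (2 ^ j * x0) * Real.log T)) ≤ Real.exp (-a) := by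
          rw [← Real.exp_add]
          refine Real.exp_le_exp.mpr ?_
          have : 0 ≤ e * x0 * Real.log T := by positivity
          nlinarith
        rw [e1]
        calc C * T * (A * (1 / 2) ^ j * Real.exp (e * (2 * (2 ^ j * x0) - x0) * Real.log T)) *
              Real.exp (-(a + 2 * e * (2 ^ j * x0) * Real.log T))
            = C * T * A * (1 / 2) ^ j * (Real.exp (e * (2 * (2 ^ j * x0) - x0) * Real.log T) *
              Real.exp (-(a + 2 * e * (2 ^ j * x0) * Real.log T))) := by ring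
          _ ≤ C * T * A * (1 / 2) ^ j * Real.exp (-a) := by
              refine mul_le_mul_of_nonneg_left e2 ?_
              have : 0 ≤ T := by linarith
              positivity
          _ = _ := by ring
    · have : S j = ∅ := by
        ext t
        simp only [hS, Set.mem_setOf_eq, Set.mem_empty_iff_false, iff_false]
        rintro ⟨-, -, h1, -⟩
        exact hj h1
      rw [this]
      simp
  refine (measure_mono hsub).trans ((measure_iUnion_le _).trans ((ENNReal.tsum_le_tsum hbd).trans ?_))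
  have hpos : 0 ≤ C * T * A * Real.exp (-a) := by
    have : 0 ≤ T := by linarith
    positivity
  rw [← ENNReal.ofReal_tsum_of_nonneg (fun j => by positivity)
    ((summable_geometric_two).mul_left _), tsum_mul_left, tsum_geometric_two]
  exact ENNReal.ofReal_le_ofReal (by linarith)

/-- Good heights for the cone. -/
def ConeOK (C1 e δ A ρ2 : ℝ) (K0 n : ℕ) (T t : ℝ) : Prop :=
  (∀ z : ℂ, ρ2 * ra T n ≤ z.re → |z.im - t| ≤ wid T (ρ2 * ra T n) A e z.re →
    ‖logDeriv (PP (T ^ (1 / K0 : ℝ))) (1 / 2 + z)‖ ≤ C1 * Real.log T) ∧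
  (∀ z : ℂ, ρ2 * ra T n ≤ z.re → |z.im - t| ≤ wid T (ρ2 * ra T n) A e z.re →
    ‖DD (T ^ (1 / K0 : ℝ)) (T ^ (1 / K0 : ℝ)) (T ^ (1 / 2 : ℝ)) (1 / 2 + z)‖ ≤
      Real.exp (4 * n + δ * z.re * Real.log T))

lemma Texp_le {e : ℝ} (he : 0 < e) (he1 : e ≤ 1 / 50) : ∃ T0 : ℝ, 2 ≤ T0 ∧ ∀ T : ℝ, T0 ≤ T →
    Real.exp (e * Real.log T) ≤ T / 8 := by
  refine ⟨Real.exp 3, ?_, fun T hT => ?_⟩
  · have := Real.add_one_le_exp (3 : ℝ); linarith
  · have hTpos : 0 < T := lt_of_lt_of_le (Real.exp_pos _) hT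
    have h3 : 3 ≤ Real.log T := by rw [Real.le_log_iff_exp_le hTpos]; exact hT
    have h8 : (8 : ℝ) ≤ Real.exp (21 / 10) := by
      have h1 : Real.exp (21 / 10) = Real.exp 1 ^ 2 * Real.exp (1 / 10) := by
        rw [← Real.exp_nat_mul, ← Real.exp_add]; norm_num
      have h2 := Real.exp_one_gt_d9
      have h4 := Real.add_one_le_exp (1 / 10 : ℝ)
      rw [h1]
      have h5 : (7.389 : ℝ) ≤ Real.exp 1 ^ 2 := by nlinarith
      nlinarith
    rw [le_div_iff₀ (by norm_num)]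
    calc Real.exp (e * Real.log T) * 8 ≤ Real.exp (e * Real.log T) * Real.exp (21 / 10) := by gcongr
      _ = Real.exp (e * Real.log T + 21 / 10) := by rw [Real.exp_add]
      _ ≤ Real.exp (Real.log T) := by
          refine Real.exp_le_exp.mpr ?_
          nlinarith
      _ = T := Real.exp_log hTpos

theorem cone (hMP : S_MP) (hMP0 : S_MP0) (hMD : S_MD) (hMD0 : S_MD0) {C1 e δ A ρ2 : ℝ} {K0 : ℕ}
    (hC1 : 1 ≤ C1) (he : 0 < e) (he1 : e ≤ 1 / 50) (heδ : e ≤ δ) (hA : 1 ≤ A) (hρ : 4 ≤ ρ2)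
    (hK0 : 16 ≤ K0) :
    Sm 4 (1 / (2 * A * ρ2)) (fun T n t => ¬ ConeOK C1 e δ A ρ2 K0 n T t) := by
  have hK0' : (16 : ℝ) ≤ K0 := by exact_mod_cast hK0
  have ha16 : 16 * (1 / (K0 : ℝ)) ≤ 1 := by
    rw [mul_one_div, div_le_iff₀ (by linarith)]; linarith
  obtain ⟨CP, TP, hCP, hTP, hP⟩ := hMP (1 / K0) C1 (1 / 2) (by positivity) (by linarith) (by norm_num)
    (by linarith)
  obtain ⟨TP0, hTP0, hP0⟩ := hMP0 (1 / K0) (by positivity)
  obtain ⟨CD, TD, hCD, hTD, hD⟩ := hMD (1 / K0) 2 1 (by positivity) (by norm_num) le_rfl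
  obtain ⟨CD0, TD0, hCD0, hTD0, hD0⟩ := hMD0 (1 / K0) (by positivity)
  obtain ⟨T1, hT1, hT1'⟩ := Texp_le he he1
  refine ⟨2 * (CP * A) + 2 * (CD * A), TP + TP0 + TD + TD0 + T1, ⌈1 / e⌉₊ + ⌈CD0⌉₊ + 1, by positivity, by linarith,
    fun T n hT hn hn1 => ?_⟩
  have hT2 : 2 ≤ T := by linarith
  have hTpos : 0 < T := by linarith
  have hL : 0 < Real.log T := Real.log_pos (by linarith)
  have hn' : ((⌈1 / e⌉₊ + ⌈CD0⌉₊ + 1 : ℕ) : ℝ) ≤ n := by exact_mod_cast hn
  push_cast at hn'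
  have hne : 1 / e ≤ n := by
    have := Nat.le_ceil (1 / e)
    have h2 : (0 : ℝ) ≤ (⌈CD0⌉₊ : ℝ) := Nat.cast_nonneg _
    linarith
  have hnC : CD0 ≤ n := by
    have := Nat.le_ceil CD0
    have h2 : (0 : ℝ) ≤ (⌈1 / e⌉₊ : ℝ) := Nat.cast_nonneg _
    linarith
  have hn1' : (1 : ℝ) ≤ n := by
    have h2 : (0 : ℝ) ≤ (⌈1 / e⌉₊ : ℝ) := Nat.cast_nonneg _
    have h3 : (0 : ℝ) ≤ (⌈CD0⌉₊ : ℝ) := Nat.cast_nonneg _
    linarith
  have hnN : 1 ≤ n := by exact_mod_cast hn1'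
  have hr := ra_pos hT2 hnN
  have hrL := ra_L n hT2
  have hr2 := ra_le hT2 hn1
  set r := ra T n with hrdef
  set x0 := ρ2 * r with hx0def
  have hx0 : 0 < x0 := by positivity
  have hx0L : x0 * Real.log T = 2 * ρ2 * n := by
    rw [hx0def, mul_assoc, hrL]; ring
  have hx8 : 8 * (n : ℝ) ≤ x0 * Real.log T := by rw [hx0L]; nlinarith
  have hAx : A * x0 ≤ 1 := by
    rw [hx0def]
    calc A * (ρ2 * r) ≤ A * (ρ2 * (2 * (1 / (2 * A * ρ2)))) := by gcongr
      _ = 1 := by field_simp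
  have hex : 1 ≤ e * x0 * Real.log T := by
    rw [mul_assoc]
    have h1 : 1 ≤ e * n := by
      rw [div_le_iff₀ he] at hne; linarith
    nlinarith
  -- the Euler product
  have hPd := dyad (C := CP) (T := T) (x0 := x0) (A := A) (e := e) (a := 4 * n)
    (fun z : ℂ => C1 * Real.log T < ‖logDeriv (PP (T ^ (1 / K0 : ℝ))) (1 / 2 + z)‖) hCP.le hT2 hx0 he hA hAx
    (hT1' T (by linarith)) hex (by
      intro x W hx hx2 hxW hWT
      have hxL : 8 * (n : ℝ) ≤ x * Real.log T := hx8.trans (mul_le_mul_of_nonneg_right hx hL.le)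
      have h1 := hP T x W (by linarith) (by rw [div_le_iff₀ hL]; linarith) hxW hWT
      refine (measure_mono ?_).trans (h1.trans (ENNReal.ofReal_le_ofReal ?_))
      · rintro t ⟨ht1, ht2, z, hz1, -, hz3, hz4⟩
        exact ⟨ht1, ht2, z, hz1, hz3, hz4⟩
      · have hx0' : 0 < x := by linarith
        have hW0 : 0 < W := by linarith
        refine mul_le_mul_of_nonneg_left (Real.exp_le_exp.mpr ?_) (by positivity)
        have : e * (x * Real.log T) ≤ 1 / 50 * (x * Real.log T) :=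
          mul_le_mul_of_nonneg_right he1 (by positivity)
        nlinarith)
  -- the rough sum
  have hDd := dyad (C := CD) (T := T) (x0 := x0) (A := A) (e := e) (a := 4 * n)
    (fun z : ℂ => Real.exp (4 * n + δ * z.re * Real.log T) <
      ‖DD (T ^ (1 / K0 : ℝ)) (T ^ (1 / K0 : ℝ)) (T ^ (1 / 2 : ℝ)) (1 / 2 + z)‖) hCD.le hT2 hx0 he hA hAx
    (hT1' T (by linarith)) hex (by
      intro x W hx hx2 hxW hWT
      have hx0' : 0 < x := by linarith
      have hW0 : 0 < W := by linarith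
      have h1 := hD T (1 / K0) (1 / 2) x W (Real.exp (4 * n + δ * x * Real.log T)) (by linarith) le_rfl
        (by norm_num) hx0' hxW hWT (Real.exp_pos _)
      refine (measure_mono ?_).trans (h1.trans (ENNReal.ofReal_le_ofReal ?_))
      · rintro t ⟨ht1, ht2, z, hz1, hz2, hz3, hz4⟩
        refine ⟨ht1, ht2, z, hz1, hz2, hz3, lt_of_le_of_lt ?_ hz4⟩
        rw [← Real.exp_add]
        refine Real.exp_le_exp.mpr ?_
        have h2 : 0 ≤ 1 / (K0 : ℝ) * z.re * Real.log T := by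
          have : 0 ≤ z.re := by linarith
          positivity
        have h3 : δ * x * Real.log T ≤ δ * z.re * Real.log T := by
          have : 0 ≤ δ := by linarith
          gcongr
        linarith
      · refine mul_le_mul_of_nonneg_left ?_ (by positivity)
        rw [← Real.exp_nat_mul, ← Real.exp_neg]
        refine Real.exp_le_exp.mpr ?_
        push_cast
        have : e * (x * Real.log T) ≤ δ * (x * Real.log T) :=
          mul_le_mul_of_nonneg_right heδ (by positivity)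
        nlinarith)
  have hsub : {t : ℝ | T / 2 ≤ t ∧ t ≤ 3 * T ∧ ¬ ConeOK C1 e δ A ρ2 K0 n T t} ⊆
      {t : ℝ | T / 2 ≤ t ∧ t ≤ 3 * T ∧ ∃ z : ℂ, x0 ≤ z.re ∧ z.re ≤ 1 / 2 ∧
        |z.im - t| ≤ wid T x0 A e z.re ∧
        C1 * Real.log T < ‖logDeriv (PP (T ^ (1 / K0 : ℝ))) (1 / 2 + z)‖} ∪
      {t : ℝ | T / 2 ≤ t ∧ t ≤ 3 * T ∧ ∃ z : ℂ, x0 ≤ z.re ∧ z.re ≤ 1 / 2 ∧
        |z.im - t| ≤ wid T x0 A e z.re ∧
        Real.exp (4 * n + δ * z.re * Real.log T) <
      ‖DD (T ^ (1 / K0 : ℝ)) (T ^ (1 / K0 : ℝ)) (T ^ (1 / 2 : ℝ)) (1 / 2 + z)‖} := by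
    rintro t ⟨ht1, ht2, ht3⟩
    unfold ConeOK at ht3
    rw [not_and_or] at ht3
    rcases ht3 with ht3 | ht3
    · left
      push Not at ht3
      obtain ⟨z, hz1, hz2, hz3⟩ := ht3
      refine ⟨ht1, ht2, z, hz1, ?_, hz2, hz3⟩
      by_contra hcon
      push Not at hcon
      have := hP0 T z (by linarith) hcon.le
      have h2 : 16 * (1 / (K0 : ℝ)) * Real.log T ≤ C1 * Real.log T :=
        mul_le_mul_of_nonneg_right (by linarith) hL.le
      linarith
    · right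
      push Not at ht3
      obtain ⟨z, hz1, hz2, hz3⟩ := ht3
      refine ⟨ht1, ht2, z, hz1, ?_, hz2, hz3⟩
      by_contra hcon
      push Not at hcon
      have h1 := hD0 T (1 / K0) (1 / 2) z (by linarith) le_rfl (by norm_num) hcon.le
      have h2 : CD0 ≤ Real.exp (4 * n + δ * z.re * Real.log T) := by
        have h3 : 0 ≤ δ * z.re * Real.log T := by
          have : 0 ≤ z.re := by linarith
          have : 0 ≤ δ := by linarith
          positivity
        have h4 := Real.add_one_le_exp (4 * n + δ * z.re * Real.log T)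
        linarith
      linarith
  refine (measure_mono hsub).trans ((measure_union_le _ _).trans ((add_le_add hPd hDd).trans ?_))
  rw [← ENNReal.ofReal_add (by positivity) (by positivity)]
  refine ENNReal.ofReal_le_ofReal (le_of_eq ?_)
  ring

end Pool.Agent.Zk69.DH
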