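import Pool.Agent.Zk69.DH.Det

set_option autoImplicit false

/-!
The measure of the heights at which the bounds for `P'/P` and for the rough blocks fail near the line.
-/

namespace Pool.Agent.Zk69.DH

open Complex Filter Topology MeasureTheory Set
open Pool.Agent.H24R2.JP (XX HH Om)
open Pool.Agent.H24R2.DZ (bad ra)
open Pool.Agent.Zk1.DH

/-! ## Small exceptional sets -/

/-- Exceptional sets of measure `O(T e^{-κ n})`, for `n ≤ κ1 log T`. -/
def Sm (κ κ1 : ℝ) (S : ℝ → ℕ → ℝ → Prop) : Prop := ∃ C T0 : ℝ, ∃ n0 : ℕ, 0 < C ∧ 2 ≤ T0 ∧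
  ∀ (T : ℝ) (n : ℕ), T0 ≤ T → n0 ≤ n → (n : ℝ) ≤ κ1 * Real.log T →
  volume {t : ℝ | T / 2 ≤ t ∧ t ≤ 3 * T ∧ S T n t} ≤ ENNReal.ofReal (C * T * Real.exp (-(κ * n)))

lemma Sm.mono {κ κ' κ1 κ1' : ℝ} {S S' : ℝ → ℕ → ℝ → Prop} (h : Sm κ κ1 S) (hκ : κ' ≤ κ) (h1 : κ1' ≤ κ1)
    (T1 : ℝ) (n1 : ℕ)
    (hS : ∀ (T : ℝ) (n : ℕ) (t : ℝ), 2 ≤ T → T1 ≤ T → n1 ≤ n → (n : ℝ) ≤ κ1' * Real.log T →
      T / 2 ≤ t → t ≤ 3 * T → S' T n t → S T n t) : Sm κ' κ1' S' := by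
  obtain ⟨C, T0, n0, hC, hT0, h⟩ := h
  refine ⟨C, max T0 T1, max n0 n1, hC, hT0.trans (le_max_left _ _), fun T n hT hn hn1 => ?_⟩
  have hT0' : T0 ≤ T := (le_max_left _ _).trans hT
  have hL : 0 ≤ Real.log T := Real.log_nonneg (by linarith)
  refine le_trans (measure_mono ?_) ((h T n hT0' ((le_max_left _ _).trans hn)
    (hn1.trans (mul_le_mul_of_nonneg_right h1 hL))).trans ?_)
  · rintro t ⟨ht1, ht2, ht3⟩
    exact ⟨ht1, ht2, hS T n t (hT0.trans hT0') ((le_max_right _ _).trans hT) ((le_max_right _ _).trans hn)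
      hn1 ht1 ht2 ht3⟩
  · refine ENNReal.ofReal_le_ofReal ?_
    refine mul_le_mul_of_nonneg_left ?_ (mul_nonneg hC.le (by linarith))
    refine Real.exp_le_exp.mpr ?_
    have : (0 : ℝ) ≤ n := Nat.cast_nonneg n
    nlinarith

lemma Sm.or {κ κ1 : ℝ} {S1 S2 : ℝ → ℕ → ℝ → Prop} (h1 : Sm κ κ1 S1) (h2 : Sm κ κ1 S2) :
    Sm κ κ1 (fun T n t => S1 T n t ∨ S2 T n t) := by
  obtain ⟨C, T0, n0, hC, hT0, h⟩ := h1
  obtain ⟨C', T0', n0', hC', hT0', h'⟩ := h2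
  refine ⟨C + C', max T0 T0', max n0 n0', by linarith, hT0.trans (le_max_left _ _), fun T n hT hn hn1 => ?_⟩
  have a1 := h T n ((le_max_left _ _).trans hT) ((le_max_left _ _).trans hn) hn1
  have a2 := h' T n ((le_max_right _ _).trans hT) ((le_max_right _ _).trans hn) hn1
  have hTpos : 0 ≤ T := by have := (le_max_left T0 T0').trans hT; linarith
  have e1 : {t : ℝ | T / 2 ≤ t ∧ t ≤ 3 * T ∧ (S1 T n t ∨ S2 T n t)} ⊆
      {t : ℝ | T / 2 ≤ t ∧ t ≤ 3 * T ∧ S1 T n t} ∪ {t : ℝ | T / 2 ≤ t ∧ t ≤ 3 * T ∧ S2 T n t} := by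
    rintro t ⟨ht1, ht2, ht3⟩
    rcases ht3 with ht3 | ht3
    · exact Or.inl ⟨ht1, ht2, ht3⟩
    · exact Or.inr ⟨ht1, ht2, ht3⟩
  refine (measure_mono e1).trans ((measure_union_le _ _).trans ((add_le_add a1 a2).trans ?_))
  rw [← ENNReal.ofReal_add (by positivity) (by positivity)]
  exact ENNReal.ofReal_le_ofReal (by nlinarith)

lemma Sm.fls (κ κ1 : ℝ) : Sm κ κ1 (fun _ _ _ => False) :=
  ⟨1, 2, 0, one_pos, le_refl _, fun T n _ _ _ => by simp⟩

lemma Sm.fin {ι : Type*} {κ κ1 : ℝ} (s : Finset ι) {S : ι → ℝ → ℕ → ℝ → Prop}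
    (h : ∀ i ∈ s, Sm κ κ1 (S i)) : Sm κ κ1 (fun T n t => ∃ i ∈ s, S i T n t) := by
  classical
  induction s using Finset.induction_on with
  | empty => exact (Sm.fls κ κ1).mono le_rfl le_rfl 0 0 (by simp)
  | insert a s ha ih =>
    have h1 := h a (Finset.mem_insert_self _ _)
    have h2 := ih (fun i hi => h i (Finset.mem_insert_of_mem hi))
    refine (h1.or h2).mono le_rfl le_rfl 0 0 ?_
    rintro T n t - - - - - - ⟨i, hi, hS⟩
    rcases Finset.mem_insert.mp hi with rfl | hi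
    · exact Or.inl hS
    · exact Or.inr ⟨i, hi, hS⟩

/-! ## `r = ra T n` -/

lemma ra_pos {T : ℝ} {n : ℕ} (hT : 2 ≤ T) (hn : 1 ≤ n) : 0 < ra T n := by
  have hL : 0 < Real.log T := Real.log_pos (by linarith)
  have : (0 : ℝ) < n := by exact_mod_cast hn
  unfold ra
  positivity

lemma ra_L {T : ℝ} (n : ℕ) (hT : 2 ≤ T) : ra T n * Real.log T = 2 * n := by
  have hL : 0 < Real.log T := Real.log_pos (by linarith)
  unfold ra
  field_simp

lemma ra_le {T κ1 : ℝ} {n : ℕ} (hT : 2 ≤ T) (hn : (n : ℝ) ≤ κ1 * Real.log T) : ra T n ≤ 2 * κ1 := by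
  have hL : 0 < Real.log T := Real.log_pos (by linarith)
  unfold ra
  rw [div_le_iff₀ (by linarith)]
  linarith

/-! ## Near the line -/

/-- The bounds for the Euler product and for the rough blocks in the near rectangle. -/
def NearOK (κ ε η ρ R Y : ℝ) (K0 n : ℕ) (T t r : ℝ) : Prop :=
  (∀ w : ℂ, 1 - κ ≤ w.re → w.re ≤ ρ + R + 1 → |w.im| ≤ Y + 1 →
      ‖logDeriv (PP (T ^ (1 / K0 : ℝ))) (1 / 2 + (I * t + r * w))‖ ≤ 2 * η / 5 * Real.log T) ∧
  (∀ k ∈ Finset.Ico 2 K0, ∀ w : ℂ, 1 - κ ≤ w.re → w.re ≤ ρ + R + 1 → |w.im| ≤ Y + 1 →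
      ‖Dk (T ^ (1 / K0 : ℝ)) T t r k w‖ ≤
        (((k : ℝ) + 1) / (k - 1)) ^ ((1 - ε) * n) * Real.exp (-(2 * n * w.re / (k + 1))))

lemma log_ratio {k : ℕ} (hk : 2 ≤ k) : 2 / (k : ℝ) ≤ Real.log (((k : ℝ) + 1) / (k - 1)) := by
  have hk2 : (2 : ℝ) ≤ k := by exact_mod_cast hk
  have h1 := Real.le_log_one_add_of_nonneg (x := 2 / ((k : ℝ) - 1)) (by
    have : (0 : ℝ) < (k : ℝ) - 1 := by linarith
    positivity)
  have e1 : 1 + 2 / ((k : ℝ) - 1) = ((k : ℝ) + 1) / (k - 1) := by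
    have : (k : ℝ) - 1 ≠ 0 := by linarith
    field_simp
    ring
  rw [e1] at h1
  refine le_trans (le_of_eq ?_) h1
  have : (k : ℝ) - 1 ≠ 0 := by linarith
  have h3 : (k : ℝ) ≠ 0 := by linarith
  have h4 : 2 / ((k : ℝ) - 1) + 2 = 2 * k / (k - 1) := by field_simp; ring
  rw [h4]
  field_simp

lemma near_P (hMP : S_MP) {κt ε κ ρ R Y : ℝ} {K0 : ℕ} (hκt : κt ≤ 4 * (1 - ε) * (1 - κ))
    (hε1 : ε ≤ 1 / 2) (hκ : 0 < κ) (hκ1 : κ ≤ 1 / 4) (hY : 1 ≤ Y) (hK0 : 3 ≤ K0)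
    (hK8 : 8 / (K0 : ℝ) ≤ ε) :
    Sm κt 1 (fun T n t => ¬ (∀ w : ℂ, 1 - κ ≤ w.re → w.re ≤ ρ + R + 1 → |w.im| ≤ Y + 1 →
      ‖logDeriv (PP (T ^ (1 / K0 : ℝ))) (1 / 2 + (I * t + ra T n * w))‖ ≤
        2 * (40 / K0) / 5 * Real.log T)) := by
  have hK0' : (3 : ℝ) ≤ K0 := by exact_mod_cast hK0
  obtain ⟨C, T0, hC, hT0, h⟩ := hMP (1 / K0) (16 / K0) ε (by positivity)
    (by rw [mul_one_div]; exact hK8) (by linarith) (by rw [mul_one_div])
  refine ⟨C * (2 * (Y + 1)), max T0 (32 * (Y + 1)), 1, by positivity, hT0.trans (le_max_left _ _),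
    fun T n hT hn hn1 => ?_⟩
  have hT0' : T0 ≤ T := (le_max_left _ _).trans hT
  have hT1 : 32 * (Y + 1) ≤ T := (le_max_right _ _).trans hT
  have hT2 : 2 ≤ T := hT0.trans hT0'
  have hL : 0 < Real.log T := Real.log_pos (by linarith)
  have hr := ra_pos hT2 hn
  have hrL := ra_L n hT2
  have hr2 := ra_le hT2 hn1
  have hn' : (1 : ℝ) ≤ n := by exact_mod_cast hn
  set r := ra T n with hrdef
  have h1 := h T ((1 - κ) * r) ((Y + 1) * r) hT0' (by
      rw [div_le_iff₀ hL, mul_assoc, hrL]; nlinarith) (by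
      refine mul_le_mul_of_nonneg_right (by linarith) hr.le) (by nlinarith)
  refine (measure_mono ?_).trans (h1.trans (ENNReal.ofReal_le_ofReal ?_))
  · rintro t ⟨ht1, ht2, ht3⟩
    refine ⟨ht1, ht2, ?_⟩
    push Not at ht3
    obtain ⟨w, hw1, hw2, hw3, hw4⟩ := ht3
    refine ⟨I * t + r * w, ?_, ?_, ?_⟩
    · rw [p_re]; nlinarith
    · rw [p_im, add_sub_cancel_left, abs_mul, abs_of_pos hr, mul_comm]
      exact mul_le_mul_of_nonneg_right hw3 hr.le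
    · refine lt_of_eq_of_lt ?_ hw4
      ring
  · have e1 : (Y + 1) * r / ((1 - κ) * r) = (Y + 1) / (1 - κ) := by
      rw [mul_div_mul_right _ _ hr.ne']
    rw [e1]
    have e2 : (Y + 1) / (1 - κ) ≤ 2 * (Y + 1) := by
      rw [div_le_iff₀ (by linarith)]; nlinarith
    have e3 : Real.exp (-(2 * (1 - ε) * ((1 - κ) * r) * Real.log T)) ≤ Real.exp (-(κt * n)) := by
      refine Real.exp_le_exp.mpr ?_
      have : 2 * (1 - ε) * ((1 - κ) * r) * Real.log T = 4 * (1 - ε) * (1 - κ) * n := by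
        calc _ = 2 * (1 - ε) * (1 - κ) * (r * Real.log T) := by ring
          _ = _ := by rw [hrL]; ring
      rw [this]
      have := mul_le_mul_of_nonneg_right hκt (by linarith : (0 : ℝ) ≤ n)
      linarith
    calc C * T * ((Y + 1) / (1 - κ)) * Real.exp (-(2 * (1 - ε) * ((1 - κ) * r) * Real.log T))
        ≤ C * T * (2 * (Y + 1)) * Real.exp (-(κt * n)) := by gcongr
      _ = _ := by ring

lemma near_D (hMD : S_MD) {κt ε κ ρ R Y : ℝ} {K0 : ℕ} (hκt : κt ≤ 4 * (1 - ε))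
    (hε1 : ε ≤ 1 / 2) (hκ : 0 < κ) (hκ1 : κ ≤ 1 / 4) (hρ : 1 ≤ ρ) (hR : 1 ≤ R) (hY : 1 ≤ Y)
    (hK0 : 3 ≤ K0) (k : ℕ) (hk : k ∈ Finset.Ico 2 K0) :
    Sm κt 1 (fun T n t => ¬ (∀ w : ℂ, 1 - κ ≤ w.re → w.re ≤ ρ + R + 1 → |w.im| ≤ Y + 1 →
      ‖Dk (T ^ (1 / K0 : ℝ)) T t (ra T n) k w‖ ≤
        (((k : ℝ) + 1) / (k - 1)) ^ ((1 - ε) * n) * Real.exp (-(2 * n * w.re / (k + 1))))) := by
  have hK0' : (3 : ℝ) ≤ K0 := by exact_mod_cast hK0
  obtain ⟨hk1, hk2⟩ := Finset.mem_Ico.mp hk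
  have hk1' : (2 : ℝ) ≤ k := by exact_mod_cast hk1
  have hk2' : (k : ℝ) + 1 ≤ K0 := by exact_mod_cast hk2
  obtain ⟨C, T0, hC, hT0, h⟩ := hMD (1 / K0) (2 * (ρ + R + 1)) k (by positivity) (by linarith) (by omega)
  refine ⟨C * (2 * (Y + 1)), max T0 (32 * (Y + 1)), 1, by positivity, hT0.trans (le_max_left _ _),
    fun T n hT hn hn1 => ?_⟩
  have hT0' : T0 ≤ T := (le_max_left _ _).trans hT
  have hT1 : 32 * (Y + 1) ≤ T := (le_max_right _ _).trans hT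
  have hT2 : 2 ≤ T := hT0.trans hT0'
  have hL : 0 < Real.log T := Real.log_pos (by linarith)
  have hr := ra_pos hT2 hn
  have hrL := ra_L n hT2
  have hr2 := ra_le hT2 hn1
  have hn' : (1 : ℝ) ≤ n := by exact_mod_cast hn
  set r := ra T n with hrdef
  have hq : (0 : ℝ) < ((k : ℝ) + 1) / (k - 1) := div_pos (by linarith) (by linarith)
  have h1 := h T (1 / ((k : ℝ) + 1)) (1 / (k : ℝ)) ((1 - κ) * r) ((Y + 1) * r)
      ((((k : ℝ) + 1) / (k - 1)) ^ ((1 - ε) * n)) hT0'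
      (one_div_le_one_div_of_le (by linarith) hk2') (by
        rw [mul_one_div, div_self (by linarith)]) (mul_pos (by linarith) hr) (by
      refine mul_le_mul_of_nonneg_right (by linarith) hr.le) (by nlinarith) (Real.rpow_pos_of_pos hq _)
  refine (measure_mono ?_).trans (h1.trans (ENNReal.ofReal_le_ofReal ?_))
  · rintro t ⟨ht1, ht2, ht3⟩
    refine ⟨ht1, ht2, ?_⟩
    push Not at ht3
    obtain ⟨w, hw1, hw2, hw3, hw4⟩ := ht3
    refine ⟨I * t + r * w, ?_, ?_, ?_, ?_⟩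
    · rw [p_re]; nlinarith
    · rw [p_re]; nlinarith [mul_nonneg hr.le (by linarith : 0 ≤ ρ + R + 1)]
    · rw [p_im, add_sub_cancel_left, abs_mul, abs_of_pos hr, mul_comm]
      exact mul_le_mul_of_nonneg_right hw3 hr.le
    · refine lt_of_eq_of_lt ?_ hw4
      rw [p_re]
      congr 3
      calc 1 / ((k : ℝ) + 1) * (r * w.re) * Real.log T = (r * Real.log T) * w.re / (k + 1) := by ring
        _ = _ := by rw [hrL]
  · have e1 : (Y + 1) * r / ((1 - κ) * r) = (Y + 1) / (1 - κ) := by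
      rw [mul_div_mul_right _ _ hr.ne']
    rw [e1]
    have e2 : (Y + 1) / (1 - κ) ≤ 2 * (Y + 1) := by
      rw [div_le_iff₀ (by linarith)]; nlinarith
    have e3 : (((((k : ℝ) + 1) / (k - 1)) ^ ((1 - ε) * n)) ^ (2 * k))⁻¹ ≤ Real.exp (-(κt * n)) := by
      rw [Real.exp_neg]
      refine inv_anti₀ (Real.exp_pos _) ?_
      rw [← Real.rpow_natCast, ← Real.rpow_mul hq.le, Real.rpow_def_of_pos hq]
      refine Real.exp_le_exp.mpr ?_
      have h5 := log_ratio hk1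
      have h6 : 2 / (k : ℝ) * ((1 - ε) * n * ((2 * k : ℕ) : ℝ)) ≤
          Real.log (((k : ℝ) + 1) / (k - 1)) * ((1 - ε) * n * ((2 * k : ℕ) : ℝ)) := by
        refine mul_le_mul_of_nonneg_right h5 ?_
        have : (0 : ℝ) ≤ ((2 * k : ℕ) : ℝ) := Nat.cast_nonneg _
        have h7 : 0 ≤ 1 - ε := by linarith
        positivity
      refine le_trans ?_ h6
      push_cast
      have : 2 / (k : ℝ) * ((1 - ε) * n * (2 * k)) = 4 * (1 - ε) * n := by
        field_simp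
        ring
      rw [this]
      exact mul_le_mul_of_nonneg_right hκt (by linarith)
    calc C * T * ((Y + 1) / (1 - κ)) * (((((k : ℝ) + 1) / (k - 1)) ^ ((1 - ε) * n)) ^ (2 * k))⁻¹
        ≤ C * T * (2 * (Y + 1)) * Real.exp (-(κt * n)) := by gcongr
      _ = _ := by ring

theorem near (hMP : S_MP) (hMD : S_MD) {κt ε κ ρ R Y : ℝ} {K0 : ℕ} (hκt : κt ≤ 4 * (1 - ε) * (1 - κ))
    (hε1 : ε ≤ 1 / 2) (hκ : 0 < κ) (hκ1 : κ ≤ 1 / 4) (hρ : 1 ≤ ρ) (hR : 1 ≤ R) (hY : 1 ≤ Y)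
    (hK0 : 3 ≤ K0) (hK8 : 8 / (K0 : ℝ) ≤ ε) :
    Sm κt 1 (fun T n t => ¬ NearOK κ ε (40 / K0) ρ R Y K0 n T t (ra T n)) := by
  have hκt' : κt ≤ 4 * (1 - ε) := by nlinarith
  have h1 := near_P hMP (ρ := ρ) (R := R) hκt hε1 hκ hκ1 hY hK0 hK8
  have h2 := Sm.fin (Finset.Ico 2 K0) (fun k hk => near_D hMD hκt' hε1 hκ hκ1 hρ hR hY hK0 k hk)
  refine (h1.or h2).mono le_rfl le_rfl 0 0 ?_
  intro T n t _ _ _ _ _ _ hbad
  by_contra hcon
  refine hbad ⟨?_, ?_⟩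
  · by_contra h
    exact hcon (Or.inl h)
  · intro k hk
    by_contra h
    exact hcon (Or.inr ⟨k, hk, h⟩)

/-- The logarithmic derivative of the gamma factor. -/
theorem HH_ok {η M : ℝ} (hη : 0 < η) (hM : 1 ≤ M) : ∃ T0 : ℝ, 2 ≤ T0 ∧ ∀ (T t : ℝ) (n : ℕ), T0 ≤ T →
    1 ≤ n → (n : ℝ) ≤ Real.log T → T / 2 ≤ t → t ≤ 3 * T → ∀ w : ℂ, ‖w‖ ≤ M →
      DifferentiableAt ℂ HH (I * t + ra T n * w) ∧ HH (I * t + ra T n * w) ≠ 0 ∧
      ‖(ra T n : ℂ) * logDeriv HH (I * t + ra T n * w) - n‖ ≤ η / 5 * n := by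
  obtain ⟨K, hK, h⟩ := Pool.Agent.H986R2.K4.hh
  obtain ⟨T1, hT1, h⟩ := h (2 * M) (by linarith)
  refine ⟨max (2 * T1) (Real.exp (5 * (4 + 2 * K) / η)), ?_, fun T t n hT hn hn1 ht1 ht2 w hw => ?_⟩
  · have := le_max_left (2 * T1) (Real.exp (5 * (4 + 2 * K) / η))
    linarith
  have hTa : 2 * T1 ≤ T := (le_max_left _ _).trans hT
  have hTb : Real.exp (5 * (4 + 2 * K) / η) ≤ T := (le_max_right _ _).trans hT
  have hT2 : 2 ≤ T := by linarith
  have hL : 0 < Real.log T := Real.log_pos (by linarith)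
  have hLb : 5 * (4 + 2 * K) / η ≤ Real.log T := by
    rw [Real.le_log_iff_exp_le (by linarith)]
    exact hTb
  have hr := ra_pos hT2 hn
  have hrL := ra_L n hT2
  have hr2 := ra_le (κ1 := 1) hT2 (by linarith)
  have hn' : (1 : ℝ) ≤ n := by exact_mod_cast hn
  set r := ra T n with hrdef
  obtain ⟨a1, a2, a3, -, -⟩ := h t (r * w) (by linarith) (by
    rw [norm_mul, Complex.norm_real, Real.norm_eq_abs, abs_of_pos hr]
    have := mul_le_mul hr2 hw (norm_nonneg _) (by norm_num)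
    linarith)
  refine ⟨a1, a2, ?_⟩
  have e1 : (r : ℂ) * logDeriv HH (I * t + r * w) - n =
      r * (logDeriv HH (I * t + r * w) - (Om t : ℂ)) + ((r * Om t - n : ℝ) : ℂ) := by
    push_cast; ring
  have e2 : |r * Om t - n| ≤ r * (11 / 20) * 2 := by
    have e3 : r * Om t - n = r * ((Real.log t - Real.log T) / 2) := by
      unfold Om
      have : (n : ℝ) = r * Real.log T / 2 := by rw [hrL]; ring
      rw [this]; ring
    rw [e3, abs_mul, abs_of_pos hr, mul_assoc]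
    refine mul_le_mul_of_nonneg_left ?_ hr.le
    have htpos : 0 < t := by linarith
    rw [← Real.log_div htpos.ne' (by linarith), abs_div, abs_two]
    have e4 : |Real.log (t / T)| ≤ 11 / 10 * 2 := by
      have e5 : t / T ≤ 3 := by rw [div_le_iff₀ (by linarith)]; exact ht2
      have e6 : 1 / 2 ≤ t / T := by rw [le_div_iff₀ (by linarith)]; linarith
      have e7 : 0 < t / T := by positivity
      rw [abs_le]
      constructor
      · have := Real.log_le_log (by norm_num) e6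
        have e8 := Real.log_two_lt_d9
        rw [one_div, Real.log_inv] at this
        linarith
      · have e8 : Real.log (t / T) ≤ t / T - 1 := Real.log_le_sub_one_of_pos e7
        linarith
    linarith
  rw [e1]
  refine (norm_add_le _ _).trans ?_
  rw [norm_mul, Complex.norm_real, Complex.norm_real, Real.norm_eq_abs, Real.norm_eq_abs, abs_of_pos hr]
  have e5 : r * ‖logDeriv HH (I * t + r * w) - (Om t : ℂ)‖ ≤ r * K := mul_le_mul_of_nonneg_left a3 hr.le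
  have e6 : r * (4 + 2 * K) ≤ 2 * (η / 5 * n) := by
    have : 5 * (4 + 2 * K) ≤ η * Real.log T := by
      rw [div_le_iff₀ hη] at hLb
      linarith
    have := mul_le_mul_of_nonneg_left this hr.le
    nlinarith
  nlinarith

/-- The conclusion of the local theorem excludes bad zeros near `It`. -/
theorem no_bad {R t r : ℝ} {n : ℕ} (hr : 0 < r)
    (hloc : ∀ z : ℂ, |z.re| ≤ R → |z.im| ≤ 1 / 50 → iteratedDeriv n (FX t r) z = 0 →
      z.re = 0 ∧ iteratedDeriv (n + 1) (FX t r) z ≠ 0)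
    (s : ℂ) (hs : bad n s) (h1 : |s.im - t| ≤ r / 100) (h2 : |s.re| ≤ R * r) : False := by
  have hrC : (r : ℂ) ≠ 0 := by exact_mod_cast hr.ne'
  have hsx : I * t + (r : ℂ) * ((s - I * t) / r) = s := by
    rw [mul_div_cancel₀ _ hrC]; ring
  have hder : ∀ m : ℕ, iteratedDeriv m (FX t r) ((s - I * t) / r) = (r : ℂ) ^ m * iteratedDeriv m XX s := by
    intro m
    have := Pool.Agent.H986R2.K4.WinAux.scale Pool.Agent.H986R2.K4.WinAux.diffXX (I * t) r m ((s - I * t) / r)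
    rw [hsx] at this
    exact this
  have hre : ((s - I * t) / r : ℂ).re = s.re / r := by
    rw [Complex.div_ofReal_re]; simp
  have him : ((s - I * t) / r : ℂ).im = (s.im - t) / r := by
    rw [Complex.div_ofReal_im]; simp
  obtain ⟨h3, h4⟩ := hloc ((s - I * t) / r) (by
      rw [hre, abs_div, abs_of_pos hr, div_le_iff₀ hr]; exact h2) (by
      rw [him, abs_div, abs_of_pos hr, div_le_iff₀ hr]; linarith) (by
      rw [hder, hs.1, mul_zero])
  rw [hre] at h3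
  rcases hs.2 with h5 | h5
  · rcases div_eq_zero_iff.mp h3 with h6 | h6
    · exact h5 h6
    · exact hr.ne' h6
  · exact h4 (by rw [hder, h5, mul_zero])

end Pool.Agent.Zk69.DH
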